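import Mathlib

/-! The additive polynomial `z ^ q + z`, `q = 2 ^ e`, in characteristic two. -/

set_option autoImplicit false
set_option linter.all false

open Polynomial

namespace Pool.Agent.W132.AG

/-- `z ^ q + z` with `q = 2 ^ e`. -/
def wp {R : Type*} [Semiring R] (e : ℕ) (z : R) : R := z ^ (2 ^ e) + z

section
variable {R : Type*} [CommRing R] [CharP R 2]

theorem wp_add (e : ℕ) (a b : R) : wp e (a + b) = wp e a + wp e b := by
  unfold wp
  rw [add_pow_char_pow]
  ring

theorem wp_zero (e : ℕ) : wp e (0 : R) = 0 := by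
  unfold wp
  rw [zero_pow (by positivity), add_zero]

theorem self_add (a : R) : a + a = 0 := CharTwo.add_self_eq_zero a

end

theorem map_wp {R S : Type*} [Semiring R] [Semiring S] (φ : R →+* S) (e : ℕ) (z : R) :
    φ (wp e z) = wp e (φ z) := by
  unfold wp; rw [map_add, map_pow]

section
variable {k : Type*} [Field k] [CharP k 2]

/-- `wp` as an additive map -/
def wpHom (k : Type*) [Field k] [CharP k 2] (e : ℕ) : k →+ k where
  toFun := wp e
  map_zero' := wp_zero e
  map_add' := wp_add e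

theorem wp_poly_monic (e : ℕ) (he : e ≠ 0) : (X ^ (2 ^ e) + X : k[X]).Monic := by
  apply monic_X_pow_add
  rw [degree_X]
  exact_mod_cast Nat.one_lt_two_pow he

theorem wp_poly_natDegree (e : ℕ) (he : e ≠ 0) : (X ^ (2 ^ e) + X : k[X]).natDegree = 2 ^ e := by
  have : (X ^ (2 ^ e) + X : k[X]).natDegree = (X ^ (2 ^ e) + C 1 * X : k[X]).natDegree := by simp
  rw [natDegree_add_eq_left_of_natDegree_lt]
  · simp
  · rw [natDegree_X_pow, natDegree_X]
    exact Nat.one_lt_two_pow he

variable [Fintype k]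

theorem e_ne_zero {e : ℕ} (hk : Fintype.card k = 2 ^ e * 2 ^ e) : e ≠ 0 := by
  rintro rfl
  have := Fintype.one_lt_card (α := k)
  simp at hk
  omega

open Classical in
/-- the kernel of `wp` -/
noncomputable def Fq (k : Type*) [Field k] [Fintype k] (e : ℕ) : Finset k :=
  Finset.univ.filter fun b => wp e b = 0

theorem mem_Fq {e : ℕ} {b : k} : b ∈ Fq k e ↔ wp e b = 0 := by simp [Fq]

theorem card_Fq_le {e : ℕ} (he : e ≠ 0) : (Fq k e).card ≤ 2 ^ e := by
  classical
  have h1 : Fq k e ⊆ (X ^ (2 ^ e) + X : k[X]).roots.toFinset := by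
    intro b hb
    rw [mem_Fq] at hb
    rw [Multiset.mem_toFinset, mem_roots (wp_poly_monic e he).ne_zero, IsRoot.def]
    simpa [wp] using hb
  calc (Fq k e).card ≤ _ := Finset.card_le_card h1
    _ ≤ Multiset.card (X ^ (2 ^ e) + X : k[X]).roots := Multiset.toFinset_card_le _
    _ ≤ (X ^ (2 ^ e) + X : k[X]).natDegree := card_roots' _
    _ = 2 ^ e := wp_poly_natDegree e he

theorem wp_wp {e : ℕ} (hk : Fintype.card k = 2 ^ e * 2 ^ e) (b : k) : wp e (wp e b) = 0 := by
  unfold wp
  rw [add_pow_char_pow, ← pow_mul, ← hk, FiniteField.pow_card]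
  have : b + b ^ 2 ^ e + (b ^ 2 ^ e + b) = (b + b ^ 2 ^ e) + (b + b ^ 2 ^ e) := by ring
  rw [this, self_add]

open Classical in
theorem card_fib {e : ℕ} (hk : Fintype.card k = 2 ^ e * 2 ^ e) (c : k) :
    (Finset.univ.filter fun b => wp e b = c).card ≤ (Fq k e).card := by
  by_cases h : ∃ b, wp e b = c
  · obtain ⟨b, rfl⟩ := h
    apply le_of_eq
    apply Finset.card_bij' (fun a _ => a + b) (fun a _ => a + b)
    · intro a ha
      rw [Finset.mem_filter] at ha
      rw [mem_Fq, wp_add, ha.2, self_add]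
    · intro a ha
      rw [mem_Fq] at ha
      simp [wp_add, ha]
    · intro a _; rw [add_assoc, self_add, add_zero]
    · intro a _; rw [add_assoc, self_add, add_zero]
  · push Not at h
    rw [Finset.filter_eq_empty_iff.2 (fun b _ => h b)]
    simp

theorem card_Fq_and {e : ℕ} (hk : Fintype.card k = 2 ^ e * 2 ^ e) :
    (Fq k e).card = 2 ^ e ∧ ∀ c ∈ Fq k e, ∃ b : k, wp e b = c := by
  classical
  have he := e_ne_zero hk
  have h1 := card_Fq_le (k := k) he
  have h2 : (Finset.univ.image (fun b : k => wp e b)) ⊆ Fq k e := by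
    intro c hc
    rw [Finset.mem_image] at hc
    obtain ⟨b, -, rfl⟩ := hc
    rw [mem_Fq, wp_wp hk]
  have h3 : Fintype.card k ≤ (Fq k e).card * (Finset.univ.image (fun b : k => wp e b)).card := by
    rw [← Finset.card_univ]
    apply Finset.card_le_mul_card_image
    intro c _
    exact card_fib hk c
  have h4 := Finset.card_le_card h2
  rw [hk] at h3
  have h5 : (Fq k e).card = 2 ^ e := by
    apply le_antisymm h1
    by_contra hc
    push Not at hc
    have h6 : 0 < 2 ^ e := by positivity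
    have h7 : (Fq k e).card * (Finset.univ.image (fun b : k => wp e b)).card ≤
      (Fq k e).card * (Fq k e).card := Nat.mul_le_mul_left _ h4
    have : (Fq k e).card * (Fq k e).card < 2 ^ e * 2 ^ e := Nat.mul_self_lt_mul_self hc
    omega
  refine ⟨h5, ?_⟩
  have h8 : (Finset.univ.image (fun b : k => wp e b)) = Fq k e := by
    apply Finset.eq_of_subset_of_card_le h2
    rw [h5] at h3 ⊢
    exact Nat.le_of_mul_le_mul_left h3 (by positivity)
  intro c hc
  rw [← h8, Finset.mem_image] at hc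
  obtain ⟨b, -, hb⟩ := hc
  exact ⟨b, hb⟩

theorem card_Fq {e : ℕ} (hk : Fintype.card k = 2 ^ e * 2 ^ e) : (Fq k e).card = 2 ^ e :=
  (card_Fq_and hk).1

theorem wp_surj {e : ℕ} (hk : Fintype.card k = 2 ^ e * 2 ^ e) {c : k} (hc : wp e c = 0) :
    ∃ b : k, wp e b = c := (card_Fq_and hk).2 c (mem_Fq.2 hc)

/-- the factorisation of `wp` -/
theorem wp_poly_eq {e : ℕ} (hk : Fintype.card k = 2 ^ e * 2 ^ e) :
    (X ^ (2 ^ e) + X : k[X]) = ∏ b ∈ Fq k e, (X - C b) := by
  classical
  have he := e_ne_zero hk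
  have h1 := wp_poly_monic (k := k) e he
  have h0 : (Fq k e).val ≤ (X ^ (2 ^ e) + X : k[X]).roots := by
    rw [Multiset.le_iff_subset (Fq k e).nodup]
    intro b hb
    have hb' : b ∈ Fq k e := hb
    rw [mem_Fq] at hb'
    rw [mem_roots h1.ne_zero, IsRoot.def]
    simpa [wp] using hb'
  have h2 : (X ^ (2 ^ e) + X : k[X]).roots = (Fq k e).val := by
    symm
    apply Multiset.eq_of_le_of_card_le h0
    have := card_roots' (X ^ (2 ^ e) + X : k[X])
    rw [wp_poly_natDegree e he] at this
    have h3 := card_Fq hk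
    rw [Finset.card_def] at h3
    omega
  have h3 := Polynomial.prod_multiset_X_sub_C_of_monic_of_roots_card_eq h1 (by
    rw [h2, ← Finset.card_def, card_Fq hk, wp_poly_natDegree e he])
  rw [← h3, h2]
  rfl

theorem wp_eq_prod {e : ℕ} (hk : Fintype.card k = 2 ^ e * 2 ^ e) {A : Type*} [CommRing A] [Algebra k A]
    (z : A) : wp e z = ∏ b ∈ Fq k e, (z - algebraMap k A b) := by
  have := congrArg (aeval z) (wp_poly_eq hk)
  rw [map_prod] at this
  simpa [wp] using this

theorem exists_const {e : ℕ} (hk : Fintype.card k = 2 ^ e * 2 ^ e) {A : Type*} [CommRing A] [IsDomain A]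
    [Algebra k A] {z : A} (hz : wp e z = 0) : ∃ b : k, wp e b = 0 ∧ z = algebraMap k A b := by
  rw [wp_eq_prod hk, Finset.prod_eq_zero_iff] at hz
  obtain ⟨b, hb, h⟩ := hz
  exact ⟨b, mem_Fq.1 hb, sub_eq_zero.1 h⟩

end

end Pool.Agent.W132.AG
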