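import Pool.Agent.W132.AG.Genus
import Pool.Agent.W132.AG.Wp

/-! Extensions `E = F(y)` with `y ^ q + y ∈ F`. -/

set_option autoImplicit false
set_option linter.all false
set_option linter.overlappingInstances false

open Module FF Pool.Agent.H525R3.FFp Polynomial

namespace Pool.Agent.W132.AG

section
variable {k F E : Type*} [Field k] [Field F] [Field E] [Algebra k F] [Algebra k E] [Algebra F E]
  [IsScalarTower k F E] [Fintype k] [CharP k 2]

omit [Fintype k] [CharP k 2] [IsScalarTower k F E] in
theorem charE [CharP k 2] : CharP E 2 := charP_of_injective_algebraMap (algebraMap k E).injective 2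

theorem as_poly_eq {e : ℕ} (hk : Fintype.card k = 2 ^ e * 2 ^ e) (y : E) {f : F}
    (hf : wp e y = algebraMap F E f) :
    (X ^ (2 ^ e) + X + C f : F[X]).map (algebraMap F E) =
      ∏ b ∈ Fq k e, (X - C (y + algebraMap k E b)) := by
  haveI : CharP E 2 := charE (k := k)
  have h1 := wp_eq_prod hk (A := E[X]) (X + C y)
  have h2 : wp e (X + C y) = (X ^ (2 ^ e) + X + C f : F[X]).map (algebraMap F E) := by
    rw [wp_add]
    unfold wp at hf ⊢
    simp only [Polynomial.map_add, Polynomial.map_pow, map_X, map_C]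
    rw [← hf, C_add, C_pow]
  rw [← h2, h1]
  refine Finset.prod_congr rfl fun b _ => ?_
  rw [C_add]
  have h3 : (X + C y - algebraMap k E[X] b : E[X]) = X + (C y - algebraMap k E[X] b) := by ring
  have h4 : (algebraMap k E[X] b) = C (algebraMap k E b) := rfl
  have h5 : (-1 : E[X]) = 1 := CharTwo.neg_eq 1
  rw [h4]
  have h6 : -C y = C y := CharTwo.neg_eq _
  linear_combination -h6

theorem as_separable {e : ℕ} (hk : Fintype.card k = 2 ^ e * 2 ^ e) (f : F) :
    (X ^ (2 ^ e) + X + C f : F[X]).Separable := by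
  haveI : CharP F 2 := charE (k := k)
  have he := e_ne_zero hk
  rw [Polynomial.Separable]
  have h1 : derivative (X ^ (2 ^ e) + X + C f : F[X]) = 1 := by
    have h2 : ((2 ^ e : ℕ) : F[X]) = 0 := by
      rw [Nat.cast_pow]
      have : ((2 : ℕ) : F[X]) = 0 := CharP.cast_eq_zero _ 2
      rw [this, zero_pow he]
    simp only [derivative_add, derivative_X_pow, derivative_X, derivative_C, add_zero]
    have h3 : (C ((2 ^ e : ℕ) : F)) = ((2 ^ e : ℕ) : F[X]) := map_natCast C _
    rw [h3, h2]
    ring
  rw [h1]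
  exact isCoprime_one_right

theorem as_splitting {e : ℕ} (hk : Fintype.card k = 2 ^ e * 2 ^ e) (y : E)
    (hy : IntermediateField.adjoin F {y} = ⊤) {f : F} (hf : wp e y = algebraMap F E f) :
    (X ^ (2 ^ e) + X + C f : F[X]).IsSplittingField F E := by
  have he := e_ne_zero hk
  have hroot : aeval y (X ^ (2 ^ e) + X + C f : F[X]) = 0 := by
    haveI : CharP E 2 := charE (k := k)
    simp only [map_add, map_pow, aeval_X, aeval_C]
    rw [← hf]
    unfold wp
    exact self_add _
  have hmonic : (X ^ (2 ^ e) + X + C f : F[X]).Monic := by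
    rw [add_assoc]
    apply monic_X_pow_add
    rw [degree_X_add_C]
    exact_mod_cast Nat.one_lt_two_pow he
  constructor
  · rw [as_poly_eq hk y hf]
    apply Splits.prod
    intro b _
    exact Splits.X_sub_C _
  · rw [eq_top_iff]
    have h1 : Algebra.adjoin F {y} ≤ Algebra.adjoin F ((X ^ (2 ^ e) + X + C f : F[X]).rootSet E) := by
      apply Algebra.adjoin_mono
      rw [Set.singleton_subset_iff, mem_rootSet]
      exact ⟨hmonic.ne_zero, hroot⟩
    have hint : IsIntegral F y := ⟨_, hmonic, hroot⟩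
    have h2 : Algebra.adjoin F {y} = ⊤ := by
      rw [← IntermediateField.adjoin_simple_toSubalgebra_of_isAlgebraic hint.isAlgebraic, hy]
      rfl
    rw [← h2]
    exact h1

theorem as_galois {e : ℕ} (hk : Fintype.card k = 2 ^ e * 2 ^ e) (y : E)
    (hy : IntermediateField.adjoin F {y} = ⊤) {f : F} (hf : wp e y = algebraMap F E f) :
    IsGalois F E := by
  haveI := as_splitting hk y hy hf
  exact IsGalois.of_separable_splitting_field (as_separable hk f)

theorem as_finite {e : ℕ} (hk : Fintype.card k = 2 ^ e * 2 ^ e) (y : E)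
    (hy : IntermediateField.adjoin F {y} = ⊤) {f : F} (hf : wp e y = algebraMap F E f) :
    FiniteDimensional F E := by
  haveI := as_splitting hk y hy hf
  exact IsSplittingField.finiteDimensional E (X ^ (2 ^ e) + X + C f : F[X])

theorem as_finrank_le {e : ℕ} (hk : Fintype.card k = 2 ^ e * 2 ^ e) (y : E)
    (hy : IntermediateField.adjoin F {y} = ⊤) {f : F} (hf : wp e y = algebraMap F E f) :
    finrank F E ≤ 2 ^ e := by
  have he := e_ne_zero hk
  haveI : CharP E 2 := charE (k := k)
  have hroot : aeval y (X ^ (2 ^ e) + X + C f : F[X]) = 0 := by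
    simp only [map_add, map_pow, aeval_X, aeval_C]
    rw [← hf]
    unfold wp
    exact self_add _
  have hmonic : (X ^ (2 ^ e) + X + C f : F[X]).Monic := by
    rw [add_assoc]
    apply monic_X_pow_add
    rw [degree_X_add_C]
    exact_mod_cast Nat.one_lt_two_pow he
  have hint : IsIntegral F y := ⟨_, hmonic, hroot⟩
  have h1 : finrank F E = (minpoly F y).natDegree := by
    rw [← IntermediateField.adjoin.finrank hint, hy]
    exact (IntermediateField.finrank_top').symm
  rw [h1]
  have h2 := minpoly.degree_le_of_ne_zero F y hmonic.ne_zero hroot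
  have h3 : (X ^ (2 ^ e) + X + C f : F[X]).natDegree = 2 ^ e := by
    rw [add_assoc, natDegree_add_eq_left_of_natDegree_lt]
    · simp
    · rw [natDegree_X_pow, natDegree_X_add_C]
      exact Nat.one_lt_two_pow he
  rw [← h3]
  exact natDegree_le_natDegree h2

theorem as_minpoly {e : ℕ} (hk : Fintype.card k = 2 ^ e * 2 ^ e) (y : E)
    (hy : IntermediateField.adjoin F {y} = ⊤) {f : F} (hf : wp e y = algebraMap F E f) :
    finrank F E = (minpoly F y).natDegree := by
  haveI := as_finite hk y hy hf
  rw [← IntermediateField.adjoin.finrank (IsIntegral.of_finite F y), hy]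
  exact (IntermediateField.finrank_top').symm

/-- automorphisms translate `y` -/
theorem as_aut {e : ℕ} (hk : Fintype.card k = 2 ^ e * 2 ^ e) (y : E) {f : F}
    (hf : wp e y = algebraMap F E f) (σ : E ≃ₐ[F] E) :
    ∃ b : k, wp e b = 0 ∧ σ y = y + algebraMap k E b := by
  haveI : CharP E 2 := charE (k := k)
  have h1 : wp e (σ y + y) = 0 := by
    rw [wp_add]
    have h2 : wp e (σ y) = σ (wp e y) := (map_wp (σ : E →+* E) e y).symm
    rw [h2, hf, AlgEquiv.commutes]
    exact self_add _
  obtain ⟨b, hb, h⟩ := exists_const hk h1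
  refine ⟨b, hb, ?_⟩
  rw [← h]
  have := self_add y
  linear_combination -this

theorem as_aut_ext {y : E} (hy : IntermediateField.adjoin F {y} = ⊤) {σ τ : E ≃ₐ[F] E}
    (h : σ y = τ y) : σ = τ := by
  ext z
  have hz : z ∈ IntermediateField.adjoin F {y} := by rw [hy]; trivial
  induction hz using IntermediateField.adjoin_induction with
  | mem x hx =>
    rw [Set.mem_singleton_iff] at hx
    rw [hx, h]
  | algebraMap x => rw [AlgEquiv.commutes, AlgEquiv.commutes]
  | add x z _ _ hx hz => rw [map_add, map_add, hx, hz]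
  | inv x _ hx => rw [map_inv₀, map_inv₀, hx]
  | mul x z _ _ hx hz => rw [map_mul, map_mul, hx, hz]

theorem as_comm {e : ℕ} (hk : Fintype.card k = 2 ^ e * 2 ^ e) {y : E}
    (hy : IntermediateField.adjoin F {y} = ⊤) {f : F} (hf : wp e y = algebraMap F E f)
    (σ τ : E ≃ₐ[F] E) : σ * τ = τ * σ := by
  apply as_aut_ext hy
  obtain ⟨a, -, ha⟩ := as_aut hk y hf σ
  obtain ⟨b, -, hb⟩ := as_aut hk y hf τ
  have hc : ∀ (ρ : E ≃ₐ[F] E) (c : k), ρ (algebraMap k E c) = algebraMap k E c := by
    intro ρ c
    rw [IsScalarTower.algebraMap_apply k F E, AlgEquiv.commutes]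
  rw [AlgEquiv.mul_apply, AlgEquiv.mul_apply, ha, hb, map_add, map_add, hc, hc, ha, hb]
  ring

end

section
variable {k F E : Type*} [Field k] [Field F] [Field E] [Algebra k F] [Algebra k E] [Algebra F E]
  [IsScalarTower k F E] [FiniteDimensional F E] [Algebra.IsSeparable F E]

theorem over_comp (w : Place k E) (σ : E ≃ₐ[F] E) :
    Over (w.comp (σ.restrictScalars k)) (und F w) (eI F w) := by
  refine ⟨(over_und w).1, fun f => ?_⟩
  rw [Place.comp_ord]
  show w.ord (σ (algebraMap F E f)) = _
  rw [AlgEquiv.commutes]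
  exact (over_und w).2 f

theorem stab_card_mul_le [PerfectField k] [IsFF k E] (w : Place k E) (y : E) (hyw : w.Reg y) (B : Finset k)
    (hB : ∀ b ∈ B, ∃ σ : E ≃ₐ[F] E, σ y = y + algebraMap k E b ∧ ∀ z, w.ord (σ z) = w.ord z) :
    B.card * (und F w).deg ≤ w.deg := by
  classical
  set w0 := und F w with hw0
  have h : Over w w0 (eI F w) := over_und w
  letI : Algebra w0.RF w.RF := h.resMap.toRingHom.toAlgebra
  haveI : IsScalarTower k w0.RF w.RF := IsScalarTower.of_algebraMap_eq (fun c => (h.resMap.commutes c).symm)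
  haveI : Module.Finite w0.RF w.RF := Module.Finite.of_restrictScalars_finite k w0.RF w.RF
  rw [deg_eq_mul h, mul_comm]
  apply Nat.mul_le_mul_left
  set β := w.red y with hβ
  set μ := minpoly w0.RF β with hμ
  have hint : IsIntegral w0.RF β := IsIntegral.of_finite _ _
  obtain ⟨μ', hμ'⟩ := Polynomial.map_surjective _ w0.resHom_surjective μ
  let φ : w0.O →+* w.O := ((algebraMap F E).comp w0.O.subtype).codRestrict w.O (fun f => h.reg.2 f.2)
  have hφ : w.resHom.comp φ = (algebraMap w0.RF w.RF).comp w0.resHom := by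
    ext a
    have := h.resMap_red (f := a.1) a.2
    rw [w0.red_of_reg a.2, w.red_of_reg (h.reg.2 a.2)] at this
    exact this.symm
  let ψ : w0.O →+* E := (algebraMap F E).comp w0.O.subtype
  have key : ∀ (z : E) (hz : w.Reg z), w.Reg (μ'.eval₂ ψ z) ∧
      w.red (μ'.eval₂ ψ z) = aeval (w.red z) μ := by
    intro z hz
    have h1 : w.O.subtype (μ'.eval₂ φ ⟨z, hz⟩) = μ'.eval₂ ψ z := by
      rw [Polynomial.hom_eval₂]
      rfl
    have h2 : w.Reg (μ'.eval₂ ψ z) := by
      rw [← h1]
      exact (μ'.eval₂ φ ⟨z, hz⟩).2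
    refine ⟨h2, ?_⟩
    rw [w.red_of_reg h2]
    have h3 : (⟨μ'.eval₂ ψ z, h2⟩ : w.O) = μ'.eval₂ φ ⟨z, hz⟩ := Subtype.ext h1.symm
    rw [h3, Polynomial.hom_eval₂, hφ, ← hμ', aeval_def, eval₂_map, w.red_of_reg hz]
  have h0 : w.red (μ'.eval₂ ψ y) = 0 := by
    rw [(key y hyw).2]
    exact minpoly.aeval _ _
  have hroot : ∀ b ∈ B, aeval (β + algebraMap k w.RF b) μ = 0 := by
    intro b hb
    obtain ⟨σ, hσ, hσw⟩ := hB b hb
    have h4 : σ (μ'.eval₂ ψ y) = μ'.eval₂ ψ (y + algebraMap k E b) := by
      have : σ (μ'.eval₂ ψ y) = (σ : E →+* E) (μ'.eval₂ ψ y) := rfl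
      rw [this, Polynomial.hom_eval₂]
      have h5 : (σ : E →+* E).comp ψ = ψ := by
        ext a
        exact AlgEquiv.commutes σ a.1
      rw [h5]
      congr 1
    have h6 : w.Reg (y + algebraMap k E b) := w.reg_add hyw (w.reg_const b)
    have h7 := key _ h6
    rw [← h4] at h7
    rw [w.red_add hyw (w.reg_const b)] at h7
    rw [← hβ] at h7
    change aeval (β + w.red (algebraMap k E b)) μ = 0
    rw [← h7.2, w.red_eq_zero_iff h7.1]
    rw [w.red_eq_zero_iff (key y hyw).1] at h0
    rcases h0 with h0 | h0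
    · left; rw [h0, map_zero]
    · right; rwa [hσw]
  have hμ0 : μ ≠ 0 := minpoly.ne_zero hint
  have h8 : B.image (fun b => β + algebraMap k w.RF b) ⊆ (μ.aroots w.RF).toFinset := by
    intro c hc
    rw [Finset.mem_image] at hc
    obtain ⟨b, hb, rfl⟩ := hc
    rw [Multiset.mem_toFinset, mem_aroots]
    exact ⟨hμ0, hroot b hb⟩
  have h9 : (B.image (fun b => β + algebraMap k w.RF b)).card = B.card := by
    apply Finset.card_image_of_injective
    intro a b hab
    exact (algebraMap k w.RF).injective (add_left_cancel hab)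
  calc B.card = _ := h9.symm
    _ ≤ _ := Finset.card_le_card h8
    _ ≤ Multiset.card (μ.aroots w.RF) := Multiset.toFinset_card_le _
    _ ≤ μ.natDegree := by
      unfold aroots
      exact (card_roots' _).trans (natDegree_map_le)
    _ ≤ _ := minpoly.natDegree_le β

end

end Pool.Agent.W132.AG
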