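import Pool.Agent.W132.AG.Over

/-! Approximation with control of the poles, for divisors of large degree. -/

set_option autoImplicit false
set_option linter.all false
set_option linter.overlappingInstances false

open Module FF Pool.Agent.H525R3.FFp

namespace Pool.Agent.W132.AG

/-- `g` has order at least `-n` at `P`. -/
def Loc {k K : Type*} [Field k] [Field K] [Algebra k K] (P : Place k K) (n : ℤ) (g : K) : Prop :=
  g = 0 ∨ -n ≤ P.ord g

section
variable {k K : Type*} [Field k] [Field K] [Algebra k K] {P : Place k K}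

theorem Loc.zero {n : ℤ} : Loc P n 0 := Or.inl rfl

theorem Loc.add {n : ℤ} {f g : K} (hf : Loc P n f) (hg : Loc P n g) : Loc P n (f + g) := by
  by_cases h1 : f = 0
  · rwa [h1, zero_add]
  by_cases h2 : g = 0
  · rwa [h2, add_zero]
  by_cases h3 : f + g = 0
  · exact Or.inl h3
  right
  have h4 := hf.resolve_left h1
  have h5 := hg.resolve_left h2
  exact (le_min h4 h5).trans (P.ord_add h1 h2 h3)

theorem Loc.neg {n : ℤ} {f : K} (hf : Loc P n f) : Loc P n (-f) := by
  rcases hf with rfl | hf
  · left; simp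
  · right; rwa [P.ord_neg]

theorem Loc.sub {n : ℤ} {f g : K} (hf : Loc P n f) (hg : Loc P n g) : Loc P n (f - g) := by
  rw [sub_eq_add_neg]; exact hf.add hg.neg

theorem Loc.mul {n m : ℤ} {f g : K} (hf : Loc P n f) (hg : Loc P m g) : Loc P (n + m) (f * g) := by
  by_cases h1 : f = 0
  · left; simp [h1]
  by_cases h2 : g = 0
  · left; simp [h2]
  right
  have h4 := hf.resolve_left h1
  have h5 := hg.resolve_left h2
  rw [P.ord_mul h1 h2]; omega

theorem Loc.mono {n m : ℤ} {f : K} (hf : Loc P n f) (h : n ≤ m) : Loc P m f := by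
  rcases hf with rfl | hf
  · exact Loc.zero
  · right; omega

theorem Loc.const (c : k) : Loc P 0 (algebraMap k K c) := by
  by_cases h : c = 0
  · left; simp [h]
  · right; rw [P.ord_const h]; simp

theorem Loc.natCast (c : ℕ) : Loc P 0 (c : K) := by
  have := Loc.const (P := P) (c : k)
  rwa [map_natCast] at this

theorem Loc.one : Loc P 0 (1 : K) := by
  right; rw [P.ord_one]; simp

theorem Loc.pow {n : ℤ} {f : K} (hf : Loc P n f) (j : ℕ) : Loc P (j * n) (f ^ j) := by
  induction j with
  | zero => simpa using Loc.one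
  | succ j ih =>
    rw [pow_succ]
    have := ih.mul hf
    convert this using 1
    push_cast; ring

theorem Loc.sum {ι : Type*} {n : ℤ} (s : Finset ι) (f : ι → K) (hf : ∀ i ∈ s, Loc P n (f i)) :
    Loc P n (∑ i ∈ s, f i) := by
  classical
  induction s using Finset.induction_on with
  | empty => exact Loc.zero
  | insert a s ha ih =>
    rw [Finset.sum_insert ha]
    exact (hf a (Finset.mem_insert_self _ _)).add
      (ih fun i hi => hf i (Finset.mem_insert_of_mem hi))

theorem Loc.smul {n : ℤ} {f : K} (hf : Loc P n f) (c : k) : Loc P n (c • f) := by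
  rw [Algebra.smul_def]
  have := (Loc.const (P := P) c).mul hf
  simpa using this

end

section
variable {k K : Type*} [Field k] [Field K] [Algebra k K] [PerfectField k] [IsFF k K]

theorem mem_LL_iff_Loc {D : Place k K →₀ ℤ} {f : K} : f ∈ LL D ↔ ∀ P : Place k K, Loc P (D P) f := by
  rw [mem_LL]
  constructor
  · rintro (h | h) P
    · exact Or.inl h
    · exact Or.inr (h P)
  · intro h
    by_cases hf : f = 0
    · exact Or.inl hf
    · exact Or.inr fun P => (h P).resolve_left hf

theorem LL_inf_LL (A B : Place k K →₀ ℤ) : LL A ⊓ LL B = LL (A ⊓ B) := by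
  ext f
  rw [Submodule.mem_inf, mem_LL_iff_Loc, mem_LL_iff_Loc, mem_LL_iff_Loc]
  constructor
  · rintro ⟨h1, h2⟩ P
    rw [Finsupp.inf_apply]
    rcases min_choice (A P) (B P) with h | h
    · rw [show A P ⊓ B P = A P from h]; exact h1 P
    · rw [show A P ⊓ B P = B P from h]; exact h2 P
  · intro h
    refine ⟨fun P => (h P).mono ?_, fun P => (h P).mono ?_⟩
    · rw [Finsupp.inf_apply]; exact inf_le_left
    · rw [Finsupp.inf_apply]; exact inf_le_right

theorem LL_sup_LL {γ N : ℤ} (hN : ∀ D : Place k K →₀ ℤ, N ≤ ddeg D → ell D = ddeg D - γ)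
    (A B : Place k K →₀ ℤ) (h : N ≤ ddeg (A ⊓ B)) : LL A ⊔ LL B = LL (A ⊔ B) := by
  have hA : ddeg (A ⊓ B) ≤ ddeg A := ddeg_mono inf_le_left
  have hB : ddeg (A ⊓ B) ≤ ddeg B := ddeg_mono inf_le_right
  have hAB : ddeg A ≤ ddeg (A ⊔ B) := ddeg_mono le_sup_left
  have e1 := hN _ h
  have e2 := hN A (by omega)
  have e3 := hN B (by omega)
  have e4 := hN (A ⊔ B) (by omega)
  have hsum : ddeg (A ⊔ B) + ddeg (A ⊓ B) = ddeg A + ddeg B := by
    rw [← ddeg_add, ← ddeg_add]
    congr 1
    ext P
    simp only [Finsupp.add_apply, Finsupp.sup_apply, Finsupp.inf_apply]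
    exact max_add_min _ _
  have h5 := Submodule.finrank_sup_add_finrank_inf_eq (LL A) (LL B)
  rw [LL_inf_LL] at h5
  have hle : LL A ⊔ LL B ≤ LL (A ⊔ B) := sup_le (LL_mono le_sup_left) (LL_mono le_sup_right)
  apply Submodule.eq_of_le_of_finrank_eq hle
  unfold ell at e1 e2 e3 e4
  have h8 : ((finrank k ↥(LL A ⊔ LL B) : ℕ) : ℤ) + finrank k ↥(LL (A ⊓ B)) =
      finrank k ↥(LL A) + finrank k ↥(LL B) := by exact_mod_cast h5
  have h7 : ((finrank k ↥(LL A ⊔ LL B) : ℕ) : ℤ) = finrank k ↥(LL (A ⊔ B)) := by omega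
  exact_mod_cast h7

/-- every element lies in some Riemann-Roch space -/
theorem mem_LL_polar (s : K) (D : Place k K →₀ ℤ) : s ∈ LL (D ⊔ polar (k := k) s) := by
  rw [mem_LL_iff_Loc]
  intro P
  by_cases hs : s = 0
  · exact Or.inl hs
  right
  rw [Finsupp.sup_apply, polar_apply]
  have h1 : max (-P.ord s) 0 ≤ D P ⊔ max (-P.ord s) 0 := le_sup_right
  have h2 : -P.ord s ≤ max (-P.ord s) 0 := le_max_left _ _
  omega

/-- Approximation. -/
theorem approx {γ N : ℤ} (hN : ∀ D : Place k K →₀ ℤ, N ≤ ddeg D → ell D = ddeg D - γ)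
    (D : Place k K →₀ ℤ) (hD : N ≤ ddeg D) (T : Finset (Place k K)) (t : Place k K → K) :
    ∃ g : K, (∀ w ∈ T, Loc w (D w) (g + t w)) ∧ ∀ w ∉ T, Loc w (D w) g := by
  classical
  induction T using Finset.induction_on with
  | empty => exact ⟨0, by simp, fun w _ => Loc.zero⟩
  | insert P T hP ih =>
    obtain ⟨g', h1, h2⟩ := ih
    let s := g' + t P
    let C := D ⊔ polar (k := k) s
    have hC : D ≤ C := le_sup_left
    let A : Place k K →₀ ℤ := D + Finsupp.single P (C P - D P)
    let B : Place k K →₀ ℤ := C - Finsupp.single P (C P - D P)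
    have hAP : A P = C P := by simp [A]
    have hAne : ∀ w, w ≠ P → A w = D w := by
      intro w hw; simp [A, Finsupp.single_apply, hw.symm]
    have hBP : B P = D P := by simp [B]
    have hBne : ∀ w, w ≠ P → B w = C w := by
      intro w hw; simp [B, Finsupp.single_apply, hw.symm]
    have hinf : A ⊓ B = D := by
      ext w
      rw [Finsupp.inf_apply]
      by_cases hw : w = P
      · subst hw; rw [hAP, hBP]; exact min_eq_right (hC w)
      · rw [hAne w hw, hBne w hw]; exact min_eq_left (hC w)
    have hsup : A ⊔ B = C := by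
      ext w
      rw [Finsupp.sup_apply]
      by_cases hw : w = P
      · subst hw; rw [hAP, hBP]; exact max_eq_left (hC w)
      · rw [hAne w hw, hBne w hw]; exact max_eq_right (hC w)
    have hs : s ∈ LL A ⊔ LL B := by
      rw [LL_sup_LL hN A B (by rw [hinf]; exact hD), hsup]
      exact mem_LL_polar s D
    rw [Submodule.mem_sup] at hs
    obtain ⟨u, hu, v, hv, huv⟩ := hs
    rw [mem_LL_iff_Loc] at hu hv
    refine ⟨g' - u, ?_, ?_⟩
    · intro w hw
      by_cases hwP : w = P
      · subst hwP
        have h3 := hv w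
        rw [hBP] at h3
        have : g' - u + t w = v := by
          have h4 : u + v = g' + t w := huv
          linear_combination -h4
        rwa [this]
      · have hwT : w ∈ T := (Finset.mem_insert.1 hw).resolve_left hwP
        have h3 := hu w
        rw [hAne w hwP] at h3
        have : g' - u + t w = (g' + t w) - u := by ring
        rw [this]
        exact (h1 w hwT).sub h3
    · intro w hw
      rw [Finset.mem_insert] at hw
      push Not at hw
      have h3 := hu w
      rw [hAne w hw.1] at h3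
      exact (h2 w hw.2).sub h3

end

end Pool.Agent.W132.AG
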