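import Pool.Agent.W132.AG.Ext

/-! The rational function field. -/

set_option autoImplicit false
set_option linter.all false
set_option linter.overlappingInstances false

open Module FF Pool.Agent.H525R3.FFp Polynomial IntermediateField

namespace Pool.Agent.W132.AG

section
variable {k A : Type} [Field k] [Field A] [Algebra k A]

theorem isFF_base {x : A} (hx : Transcendental k x) (hg : k⟮x⟯ = ⊤) : IsFF k A := by
  apply IsFF.of_finite hx
  rw [hg]
  apply FiniteDimensional.of_finrank_pos
  rw [IntermediateField.finrank_top]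
  exact one_pos

theorem gen_sub {x : A} (hg : k⟮x⟯ = ⊤) (c : k) : k⟮x - algebraMap k A c⟯ = ⊤ := by
  rw [eq_top_iff, ← hg, IntermediateField.adjoin_simple_le_iff]
  have h1 : x - algebraMap k A c ∈ k⟮x - algebraMap k A c⟯ := IntermediateField.mem_adjoin_simple_self k _
  have h2 := add_mem h1 (k⟮x - algebraMap k A c⟯.algebraMap_mem c)
  rwa [sub_add_cancel] at h2

theorem gen_inv {x : A} (hg : k⟮x⟯ = ⊤) : k⟮x⁻¹⟯ = ⊤ := by
  rw [adjoin_inv, hg]

variable [PerfectField k]

theorem D_gen_ne {x : A} [IsFF k A] (hg : k⟮x⟯ = ⊤) : KaehlerDifferential.D k A x ≠ 0 := by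
  intro h
  obtain ⟨f, hf⟩ := exists_D_ne k A
  apply hf
  have h1 : f ∈ k⟮x⟯ := by rw [hg]; trivial
  have := D_mem_span (x := x) ⟨f, h1⟩
  rw [h, Submodule.span_zero_singleton, Submodule.mem_bot] at this
  exact this

theorem ddeg_polar_gen {x : A} [IsFF k A] (hg : k⟮x⟯ = ⊤) : ddeg (polar (k := k) x) = 1 := by
  rw [ddeg_polar (D_gen_ne hg), hg, IntermediateField.finrank_top]
  rfl

theorem le_ddeg [IsFF k A] {D : Place k A →₀ ℤ} (hD : 0 ≤ D) (w : Place k A) : D w * w.deg ≤ ddeg D := by
  classical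
  have h1 : Finsupp.single w (D w) ≤ D := by
    intro w'
    rw [Finsupp.single_apply]
    split_ifs with h
    · rw [h]
    · exact hD w'
  have := ddeg_mono h1
  rwa [ddeg_single] at this

theorem pole_gen {x : A} [IsFF k A] (hg : k⟮x⟯ = ⊤) {w : Place k A} (hw : w.ord x < 0) :
    w.ord x = -1 ∧ w.deg = 1 := by
  have h1 := le_ddeg (polar_nonneg (k := k) x) w
  rw [ddeg_polar_gen hg, polar_apply, max_eq_left (by omega)] at h1
  have h2 : 0 < w.deg := deg_pos w
  have h3 : (1 : ℤ) ≤ w.deg := by exact_mod_cast h2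
  have h4 : - w.ord x = 1 := by nlinarith
  rw [h4] at h1
  constructor
  · omega
  · have : (w.deg : ℤ) = 1 := by linarith
    exact_mod_cast this

theorem exists_pole_gen {x : A} [IsFF k A] (hg : k⟮x⟯ = ⊤) : ∃ w : Place k A, w.ord x < 0 := by
  by_contra hc
  push Not at hc
  have h1 : polar (k := k) x = 0 := by
    ext w
    rw [polar_apply, max_eq_right (by have := hc w; omega)]
    rfl
  have h2 := ddeg_polar_gen (k := k) hg
  rw [h1, ddeg_zero] at h2
  exact zero_ne_one h2

theorem ne_of_trans {x : A} (hx : Transcendental k x) (c : k) : x - algebraMap k A c ≠ 0 := by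
  intro h
  rw [sub_eq_zero] at h
  exact hx (h ▸ isAlgebraic_algebraMap c)

/-- zeros of `x - c` -/
theorem zero_gen {x : A} [IsFF k A] (hg : k⟮x⟯ = ⊤) (c : k) {w : Place k A}
    (hw : 0 < w.ord (x - algebraMap k A c)) : w.ord (x - algebraMap k A c) = 1 ∧ w.deg = 1 := by
  have h1 := pole_gen (k := k) (gen_inv (gen_sub hg c)) (w := w) (by rw [w.ord_inv]; omega)
  rw [w.ord_inv] at h1
  exact ⟨by omega, h1.2⟩

theorem exists_zero_gen {x : A} [IsFF k A] (hg : k⟮x⟯ = ⊤) (c : k) :
    ∃ w : Place k A, 0 < w.ord (x - algebraMap k A c) := by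
  obtain ⟨w, hw⟩ := exists_pole_gen (k := k) (gen_inv (gen_sub hg c))
  refine ⟨w, ?_⟩
  rw [w.ord_inv] at hw
  omega

theorem phi_base {x : A} [IsFF k A] (hx : Transcendental k x) (hg : k⟮x⟯ = ⊤) (D : Place k A →₀ ℤ) :
    phi D ≤ -1 := by
  obtain ⟨m, z, hz, hD⟩ := exists_compare (D_gen_ne (k := k) hg) D
  have h1 := phi_mono hD
  rw [phi_add_divisor _ hz] at h1
  refine h1.trans ?_
  unfold phi
  rw [ddeg_nsmul, ddeg_polar_gen hg]
  have hx0 : x ≠ 0 := by
    rintro rfl
    exact hx isAlgebraic_zero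
  have hmem : ∀ p ∈ degreeLT k (m + 1), aeval x p ∈ LL (m • polar (k := k) x) := by
    intro p hp
    rw [mem_LL_iff_Loc]
    intro w
    have hdeg : p.natDegree < m + 1 := by
      by_cases h0 : p = 0
      · rw [h0]; simp
      · rw [mem_degreeLT] at hp
        rwa [natDegree_lt_iff_degree_lt h0]
    rw [aeval_eq_sum_range' hdeg]
    apply Loc.sum
    intro j hj
    rw [Finset.mem_range] at hj
    apply Loc.smul
    right
    rw [w.ord_pow, Finsupp.smul_apply, polar_apply]
    have h2 : -w.ord x ≤ max (-w.ord x) 0 := le_max_left _ _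
    have h3 : 0 ≤ max (-w.ord x) 0 := le_max_right _ _
    have h4 : (j : ℤ) ≤ m := by omega
    have h5 : (j : ℤ) * max (-w.ord x) 0 ≤ m * max (-w.ord x) 0 := mul_le_mul_of_nonneg_right h4 h3
    have h6 : (j : ℤ) * (-w.ord x) ≤ j * max (-w.ord x) 0 := mul_le_mul_of_nonneg_left h2 (by positivity)
    rw [nsmul_eq_mul]
    linarith
  let ι : degreeLT k (m + 1) →ₗ[k] LL (m • polar (k := k) x) :=
    { toFun := fun p => ⟨aeval x p.1, hmem p.1 p.2⟩
      map_add' := fun a b => Subtype.ext (by simp)
      map_smul' := fun c a => Subtype.ext (by simp) }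
  have hι : Function.Injective ι := by
    rw [injective_iff_map_eq_zero]
    rintro ⟨p, hp⟩ h
    have h2 : aeval x p = 0 := congrArg Subtype.val h
    apply Subtype.ext
    exact (transcendental_iff.1 hx) p h2
  have h3 := LinearMap.finrank_le_finrank_of_injective hι
  have h4 : finrank k (degreeLT k (m + 1)) = m + 1 := by
    rw [(degreeLTEquiv k (m + 1)).finrank_eq]
    simp
  unfold ell
  rw [h4] at h3
  push_cast at h3
  have : ((m + 1 : ℕ) : ℤ) ≤ (finrank k (LL (m • polar (k := k) x)) : ℕ) := by exact_mod_cast h3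
  push_cast at this
  linarith

end

section
variable {k A : Type} [Field k] [Field A] [Algebra k A] [Fintype k] [CharP k 2]

/-- zeros of `wp x` are simple and rational -/
theorem wp_zero_gen {e : ℕ} (hk : Fintype.card k = 2 ^ e * 2 ^ e) {x : A} [IsFF k A]
    (hx : Transcendental k x) (hg : k⟮x⟯ = ⊤) {w : Place k A} (hw : 0 < w.ord (wp e x)) :
    w.ord (wp e x) = 1 := by
  have he := e_ne_zero hk
  haveI : CharP A 2 := charE (k := k)
  have h1 : w.Reg (wp e x) := Or.inr hw.le
  have h2 : w.Reg x := reg_of_wp_reg he w h1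
  have h3 : wp e (w.red x) = 0 := by
    rw [← red_wp w h2, w.red_eq_zero_iff h1]
    exact Or.inr hw
  obtain ⟨b, hb, hbx⟩ := exists_const hk h3
  have h4 : w.Reg (x - algebraMap k A b) := by
    rw [sub_eq_add_neg]; exact w.reg_add h2 (w.reg_neg (w.reg_const _))
  have h5 : w.red (x - algebraMap k A b) = 0 := by
    rw [w.red_sub h2 (w.reg_const _), hbx]
    exact sub_self _
  rw [w.red_eq_zero_iff h4] at h5
  have h6 := h5.resolve_left (ne_of_trans hx b)
  obtain ⟨h7, -⟩ := zero_gen hg b h6
  set t := x - algebraMap k A b with ht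
  have ht0 : t ≠ 0 := ne_of_trans hx b
  have h8 : wp e x = t + t ^ 2 ^ e := by
    have : x = t + algebraMap k A b := by rw [ht]; ring
    rw [this, wp_add, ← map_wp, hb, map_zero, add_zero]
    unfold wp
    ring
  have h9 : w.ord (t ^ 2 ^ e) = 2 ^ e := by
    rw [w.ord_pow, h7]; push_cast; ring
  have h10 : (2 : ℤ) ≤ 2 ^ e := by
    have : 2 ^ 1 ≤ 2 ^ e := Nat.pow_le_pow_right (by norm_num) (by omega)
    exact_mod_cast this
  have h11 := w.ord_add_eq ht0 (pow_ne_zero (2 ^ e) ht0) (by rw [h7, h9]; omega)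
  rw [h8, h11.2, h7]

theorem wp_ne_zero {e : ℕ} (hk : Fintype.card k = 2 ^ e * 2 ^ e) {x : A}
    (hx : Transcendental k x) : wp e x ≠ 0 := by
  intro h
  obtain ⟨b, -, hb⟩ := exists_const hk h
  exact hx (hb ▸ isAlgebraic_algebraMap b)

theorem weak_base {e : ℕ} (hk : Fintype.card k = 2 ^ e * 2 ^ e) {x : A} [IsFF k A]
    (hx : Transcendental k x) (hg : k⟮x⟯ = ⊤) (w : Place k A) : Weak e (wp e x)⁻¹ w := by
  haveI : CharP A 2 := charE (k := k)
  refine ⟨0, ?_⟩
  rw [wp_zero, add_zero]
  right
  rw [w.ord_inv]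
  rcases le_or_gt (w.ord (wp e x)) 0 with h | h
  · omega
  · rw [wp_zero_gen hk hx hg h]

/-- the locus -/
def Lam {k A : Type} [Field k] [Field A] [Algebra k A] (e : ℕ) (x : A) (w : Place k A) : Prop :=
  w.ord x < 0 ∨ 0 < w.ord (wp e x)

theorem ddeg_support_le {k A : Type} [Field k] [Field A] [Algebra k A] [PerfectField k] [IsFF k A]
    {D : Place k A →₀ ℤ} (hD : 0 ≤ D) : ∑ w ∈ D.support, (w.deg : ℤ) ≤ ddeg D := by
  unfold ddeg Finsupp.sum
  apply Finset.sum_le_sum
  intro w hw
  have h1 := hD w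
  have h2 : D w ≠ 0 := Finsupp.mem_support_iff.1 hw
  have h3 : (0 : ℤ) < D w := lt_of_le_of_ne h1 (Ne.symm h2)
  nlinarith [Int.natCast_nonneg w.deg]

theorem ddeg_polar_inv {k A : Type} [Field k] [Field A] [Algebra k A] [PerfectField k] [IsFF k A]
    (g : A) : ddeg (polar (k := k) g⁻¹) = ddeg (polar (k := k) g) := by
  have h1 : divisor k g = polar g⁻¹ - polar g := by
    ext P
    rw [Finsupp.sub_apply, polar_apply, polar_apply, divisor_apply, P.ord_inv]
    omega
  have h2 := ddeg_divisor (k := k) g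
  rw [h1, ddeg_sub] at h2
  omega

theorem locus_base {e : ℕ} (hk : Fintype.card k = 2 ^ e * 2 ^ e) {x : A} [IsFF k A]
    (hx : Transcendental k x) (hg : k⟮x⟯ = ⊤) :
    ∃ S : Finset (Place k A), (∀ w, w ∈ S ↔ Lam e x w) ∧ ∑ w ∈ S, (w.deg : ℤ) ≤ 2 ^ e + 1 := by
  classical
  have he := e_ne_zero hk
  refine ⟨(polar (k := k) x).support ∪ (polar (k := k) (wp e x)⁻¹).support, ?_, ?_⟩
  · intro w
    unfold Lam
    rw [Finset.mem_union, Finsupp.mem_support_iff, Finsupp.mem_support_iff, polar_apply, polar_apply,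
      w.ord_inv]
    constructor
    · rintro (h | h)
      · left
        by_contra hc
        exact h (max_eq_right (by omega))
      · right
        by_contra hc
        exact h (max_eq_right (by omega))
    · rintro (h | h)
      · left
        rw [max_eq_left (by omega)]; omega
      · right
        rw [max_eq_left (by omega)]; omega
  · have h1 : polar (k := k) (wp e x) = (2 ^ e) • polar (k := k) x := by
      ext w
      rw [Finsupp.smul_apply, polar_apply, polar_apply]
      rcases lt_or_ge (w.ord x) 0 with h | h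
      · rw [ord_wp_of_neg he w h, max_eq_left (by omega : (0 : ℤ) ≤ - w.ord x)]
        have : (0 : ℤ) < 2 ^ e := by positivity
        rw [max_eq_left (by nlinarith)]
        rw [nsmul_eq_mul]
        push_cast
        ring
      · rw [max_eq_right (by omega : - w.ord x ≤ 0)]
        have h2 : w.Reg (wp e x) := by
          have h3 : w.Reg x := Or.inr h
          unfold wp
          exact w.reg_add (reg_pow w h3 _) h3
        have h4 := h2.resolve_left (wp_ne_zero hk hx)
        rw [max_eq_right (by omega)]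
        simp
    have h2 := ddeg_support_le (polar_nonneg (k := k) x)
    have h3 := ddeg_support_le (polar_nonneg (k := k) (wp e x)⁻¹)
    rw [ddeg_polar_inv, h1, ddeg_nsmul, ddeg_polar_gen hg] at h3
    rw [ddeg_polar_gen hg] at h2
    have h4 := Finset.sum_union_inter (s₁ := (polar (k := k) x).support)
      (s₂ := (polar (k := k) (wp e x)⁻¹).support) (f := fun w => (w.deg : ℤ))
    have h5 : 0 ≤ ∑ w ∈ (polar (k := k) x).support ∩ (polar (k := k) (wp e x)⁻¹).support, (w.deg : ℤ) :=
      Finset.sum_nonneg fun w _ => by positivity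
    push_cast at h3
    linarith

theorem rat_base {e : ℕ} (hk : Fintype.card k = 2 ^ e * 2 ^ e) {x : A} [IsFF k A]
    (hx : Transcendental k x) (hg : k⟮x⟯ = ⊤) :
    ∃ S : Finset (Place k A), S.card = 2 ^ e * 2 ^ e - 2 ^ e ∧ ∀ w ∈ S, w.deg = 1 ∧ ¬ Lam e x w := by
  classical
  have he := e_ne_zero hk
  choose P hP using fun c : k => exists_zero_gen (k := k) hg c
  have hreg : ∀ c, (P c).Reg x := by
    intro c
    have h1 : (P c).Reg (x - algebraMap k A c) := Or.inr (hP c).le
    have := (P c).reg_add h1 ((P c).reg_const c)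
    rwa [sub_add_cancel] at this
  have hred : ∀ c, (P c).red x = algebraMap k (P c).RF c := by
    intro c
    have h1 : (P c).Reg (x - algebraMap k A c) := Or.inr (hP c).le
    have h2 : (P c).red (x - algebraMap k A c) = 0 := ((P c).red_eq_zero_iff h1).2 (Or.inr (hP c))
    rw [(P c).red_sub (hreg c) ((P c).reg_const c), sub_eq_zero] at h2
    exact h2
  have hinj : Function.Injective P := by
    intro a b hab
    have h1 := hred a
    rw [hab, hred b] at h1
    exact ((algebraMap k (P b).RF).injective h1).symm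
  refine ⟨(Finset.univ \ Fq k e).image P, ?_, ?_⟩
  · rw [Finset.card_image_of_injective _ hinj, Finset.card_sdiff_of_subset (Finset.subset_univ _),
      Finset.card_univ, hk, card_Fq hk]
  · intro w hw
    rw [Finset.mem_image] at hw
    obtain ⟨c, hc, rfl⟩ := hw
    rw [Finset.mem_sdiff, mem_Fq] at hc
    refine ⟨(zero_gen hg c (hP c)).2, ?_⟩
    rintro (h | h)
    · have h1 := (hreg c).resolve_left (by
        rintro rfl
        exact hx isAlgebraic_zero)
      omega
    · have h1 : (P c).Reg (wp e x) := Or.inr h.le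
      have h2 : (P c).red (wp e x) = 0 := ((P c).red_eq_zero_iff h1).2 (Or.inr h)
      rw [red_wp _ (hreg c), hred c, ← map_wp, map_eq_zero] at h2
      exact hc.2 h2

end

end Pool.Agent.W132.AG
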