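import Pool.Agent.W132.AG.Tower

/-! Evaluation codes. -/

set_option autoImplicit false
set_option linter.all false
set_option linter.overlappingInstances false

open Module FF Pool.Agent.H525R3.FFp

namespace Pool.Agent.W132.AG

section
variable {k F : Type} [Field k] [Field F] [Algebra k F] [Fintype k] [CharP k 2] [IsFF k F]

theorem exists_ev (w : Place k F) (hd : w.deg = 1) (D : Place k F →₀ ℤ) (hD : D w = 0) :
    ∃ φ : LL D →ₗ[k] k, ∀ f : LL D, w.Reg (f : F) ∧ algebraMap k w.RF (φ f) = w.red (f : F) := by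
  have hreg : ∀ f : LL D, w.Reg (f : F) := by
    intro f
    have h1 := (mem_LL_iff_Loc.1 f.2) w
    rw [hD] at h1
    exact loc_zero_iff.1 h1
  choose g hg using fun f : LL D => exists_value w hd (w.red (f : F))
  have hinj := (algebraMap k w.RF).injective
  refine ⟨{ toFun := g, map_add' := ?_, map_smul' := ?_ }, fun f => ⟨hreg f, (hg f).symm⟩⟩
  · intro a b
    apply hinj
    rw [map_add, ← hg, ← hg, ← hg, ← w.red_add (hreg a) (hreg b)]
    rfl
  · intro c a
    apply hinj
    rw [RingHom.id_apply, smul_eq_mul, map_mul, ← hg, ← hg]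
    have : ((c • a : LL D) : F) = algebraMap k F c * (a : F) := by
      rw [Submodule.coe_smul, Algebra.smul_def]
    rw [this, w.red_mul (w.reg_const c) (hreg a)]
    rfl

/-- number of zeros -/
theorem card_zeros_le (P0 : Place k F) (hP0 : P0.deg = 1) (r : ℕ) {f : F}
    (hf : f ∈ LL (Finsupp.single P0 (r : ℤ))) (hf0 : f ≠ 0) (Z : Finset (Place k F))
    (hZ : ∀ w ∈ Z, w ≠ P0 ∧ 0 < w.ord f) : Z.card ≤ r := by
  classical
  let D : Place k F →₀ ℤ := ∑ w ∈ Z, Finsupp.single w 1
  have hDapp : ∀ w, D w = if w ∈ Z then 1 else 0 := by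
    intro w
    simp only [D, Finsupp.finsetSum_apply, Finsupp.single_apply]
    rw [Finset.sum_ite_eq' Z w]
  have h1 : D ≤ divisor k f + Finsupp.single P0 (r : ℤ) := by
    intro w
    rw [hDapp, Finsupp.add_apply, divisor_apply]
    have h2 := (mem_LL_iff_Loc.1 hf w).resolve_left hf0
    split_ifs with hw
    · obtain ⟨h3, h4⟩ := hZ w hw
      rw [Finsupp.single_apply, if_neg (Ne.symm h3)]
      omega
    · omega
  have h2 := ddeg_mono h1
  rw [ddeg_add, ddeg_divisor, ddeg_single, hP0] at h2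
  have h3 : ddeg D = ∑ w ∈ Z, (w.deg : ℤ) := by
    have : ddeg D = ∑ w ∈ Z, ddeg (Finsupp.single w (1 : ℤ)) :=
      map_sum (ddegHom k F) _ _
    rw [this]
    refine Finset.sum_congr rfl fun w _ => ?_
    rw [ddeg_single, one_mul]
  have h4 : (Z.card : ℤ) ≤ ∑ w ∈ Z, (w.deg : ℤ) := by
    rw [Finset.card_eq_sum_ones]
    push_cast
    apply Finset.sum_le_sum
    intro w _
    exact_mod_cast (deg_pos w)
  push_cast at h2
  have : (Z.card : ℤ) ≤ r := by linarith
  exact_mod_cast this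

theorem ell_single_le (P0 : Place k F) (hP0 : P0.deg = 1) (r : ℕ) :
    ell (Finsupp.single P0 (r : ℤ)) ≤ r + 1 := by
  have h1 : ell (Finsupp.single P0 (-1 : ℤ)) = 0 := by
    unfold ell
    rw [LL_eq_bot]
    · simp
    · rw [ddeg_single, hP0]; norm_num
  have h2 : (Finsupp.single P0 (-1 : ℤ)) ≤ (Finsupp.single P0 (r : ℤ)) := by
    rw [Finsupp.single_le_single]
    omega
  have h3 := ell_le h2
  rw [h1, ddeg_single, ddeg_single, hP0] at h3
  push_cast at h3
  linarith

/-- The evaluation codes. -/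
theorem codes_aux {γ : ℕ} (hγ : ∀ D : Place k F →₀ ℤ, phi D ≤ γ) (S : Finset (Place k F))
    (hS : ∀ w ∈ S, w.deg = 1) (hcard : 2 * (4 * γ + 4) + 1 < S.card) :
    ∃ (X : Type) (_ : Fintype X) (_ : Nonempty X) (L G : Submodule k (X → k)),
      (∀ f ∈ L, ∀ g ∈ L, f * g ∈ G) ∧ (∀ x y : X, x ≠ y → ∃ g ∈ G, g x = 0 ∧ g y ≠ 0) ∧
      (∀ g ∈ G, g ≠ 0 → Nat.card {x : X // g x = 0} ≤ 4 * γ + 4) ∧
      finrank k G ≤ 4 * γ + 5 ∧ γ + 2 ≤ finrank k L ∧
      S.card ≤ Fintype.card X + (4 * γ + 4) + 1 := by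
  classical
  obtain ⟨P0, hP0S⟩ : S.Nonempty := Finset.card_pos.1 (by omega)
  have hP0 := hS P0 hP0S
  set r : ℕ := 4 * γ + 4 with hr
  set s : ℕ := 2 * γ + 2 with hs
  let D : Place k F →₀ ℤ := Finsupp.single P0 (r : ℤ)
  let D' : Place k F →₀ ℤ := Finsupp.single P0 (s : ℤ)
  let X0 : Finset (Place k F) := S.erase P0
  have hX0 : X0.card + 1 = S.card := Finset.card_erase_add_one hP0S
  have hX0' : ∀ w ∈ X0, w.deg = 1 ∧ w ≠ P0 ∧ D w = 0 := by
    intro w hw
    rw [Finset.mem_erase] at hw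
    refine ⟨hS w hw.2, hw.1, ?_⟩
    simp [D, Finsupp.single_apply, hw.1.symm]
  choose! ev hev using fun (w : Place k F) (hw : w ∈ X0) =>
    exists_ev w (hX0' w hw).1 D (hX0' w hw).2.2
  -- the functionals
  let I : Finset (LL D →ₗ[k] k) := X0.image ev
  have hellD : (3 * γ + 4 : ℤ) ≤ ell D := by
    have h1 := hγ D
    unfold phi at h1
    rw [show ddeg D = r * 1 by rw [ddeg_single, hP0]; simp] at h1
    rw [hr] at h1
    push_cast at h1
    linarith
  have hzero : ∀ (f : LL D), f ≠ 0 → (X0.filter fun w => ev w f = 0).card ≤ r := by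
    intro f hf
    apply card_zeros_le P0 hP0 r f.2 (fun h => hf (Subtype.ext h))
    intro w hw
    rw [Finset.mem_filter] at hw
    refine ⟨(hX0' w hw.1).2.1, ?_⟩
    obtain ⟨h1, h2⟩ := hev w hw.1 f
    rw [hw.2, map_zero] at h2
    exact ((w.red_eq_zero_iff h1).1 h2.symm).resolve_left (fun h => hf (Subtype.ext h))
  have hone : (1 : F) ∈ LL D := by
    rw [mem_LL_iff_Loc]
    intro w
    apply Loc.one.mono
    simp only [D, Finsupp.single_apply]
    split_ifs <;> positivity
  have hev1 : ∀ w ∈ X0, ev w ⟨1, hone⟩ = 1 := by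
    intro w hw
    have h1 := (hev w hw ⟨1, hone⟩).2
    have h2 : algebraMap k w.RF (ev w ⟨1, hone⟩) = algebraMap k w.RF 1 := by
      rw [h1, map_one]; exact w.red_one
    exact (algebraMap k w.RF).injective h2
  -- vanishing at few functionals
  have hvan : ∀ T : Finset (LL D →ₗ[k] k), (T.card : ℤ) < ell D → ∃ f : LL D, f ≠ 0 ∧ ∀ φ ∈ T, φ f = 0 := by
    intro T hT
    let Ψ : LL D →ₗ[k] (T → k) := LinearMap.pi fun φ => φ.1
    have h1 : LinearMap.ker Ψ ≠ ⊥ := by
      intro h
      have h2 := LinearMap.finrank_range_add_finrank_ker Ψ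
      rw [h, finrank_bot, add_zero] at h2
      have h3 := (LinearMap.range Ψ).finrank_le
      rw [finrank_fintype_fun_eq_card, Fintype.card_coe, h2] at h3
      unfold ell at hT
      have : finrank k (LL D) ≤ T.card := h3
      omega
    obtain ⟨f, hf, hf0⟩ := Submodule.exists_mem_ne_zero_of_ne_bot h1
    refine ⟨f, hf0, fun φ hφ => ?_⟩
    rw [LinearMap.mem_ker] at hf
    exact congrFun hf ⟨φ, hφ⟩
  -- the number of functionals
  let cls : (LL D →ₗ[k] k) → Finset (Place k F) := fun φ => X0.filter fun w => ev w = φ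
  have hcls : ∀ T : Finset (LL D →ₗ[k] k), ∀ f : LL D, f ≠ 0 → (∀ φ ∈ T, φ f = 0) →
      ∑ φ ∈ T, (cls φ).card ≤ r := by
    intro T f hf hT
    rw [← Finset.card_biUnion]
    · refine le_trans (Finset.card_le_card ?_) (hzero f hf)
      intro w hw
      rw [Finset.mem_biUnion] at hw
      obtain ⟨φ, hφ, hw⟩ := hw
      rw [Finset.mem_filter] at hw ⊢
      exact ⟨hw.1, by rw [hw.2]; exact hT φ hφ⟩
    · intro a _ b _ hab
      rw [Function.onFun, Finset.disjoint_left]
      intro w hwa hwb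
      rw [Finset.mem_filter] at hwa hwb
      exact hab (hwa.2.symm.trans hwb.2)
  let T2 : Finset (LL D →ₗ[k] k) := I.filter fun φ => 2 ≤ (cls φ).card
  have hT2 : (T2.card : ℤ) < ell D := by
    by_contra hc
    push Not at hc
    obtain ⟨T, hT, hTc⟩ := Finset.exists_subset_card_eq (s := T2) (n := 3 * γ + 3) (by omega)
    obtain ⟨f, hf, hfT⟩ := hvan T (by rw [hTc]; push_cast; linarith)
    have h1 := hcls T f hf hfT
    have h2 : ∑ φ ∈ T, 2 ≤ ∑ φ ∈ T, (cls φ).card := by
      apply Finset.sum_le_sum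
      intro φ hφ
      exact (Finset.mem_filter.1 (hT hφ)).2
    rw [Finset.sum_const, smul_eq_mul, hTc] at h2
    omega
  obtain ⟨f2, hf2, hf2T⟩ := hvan T2 hT2
  have hbig := hcls T2 f2 hf2 hf2T
  have hX0sum : X0.card = ∑ φ ∈ I, (cls φ).card :=
    Finset.card_eq_sum_card_image ev X0
  have hIcard : X0.card ≤ I.card + r := by
    rw [hX0sum, ← Finset.sum_filter_add_sum_filter_not I (fun φ => 2 ≤ (cls φ).card)]
    have h1 : ∑ φ ∈ I.filter (fun φ => ¬ 2 ≤ (cls φ).card), (cls φ).card ≤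
        ∑ φ ∈ I.filter (fun φ => ¬ 2 ≤ (cls φ).card), 1 := by
      apply Finset.sum_le_sum
      intro φ hφ
      have := (Finset.mem_filter.1 hφ).2
      omega
    rw [← Finset.card_eq_sum_ones] at h1
    have h2 : (I.filter (fun φ => ¬ 2 ≤ (cls φ).card)).card ≤ I.card := Finset.card_filter_le _ _
    have h3 : ∑ φ ∈ I.filter (fun φ => 2 ≤ (cls φ).card), (cls φ).card ≤ r := hbig
    omega
  have hrI : r < I.card := by omega
  -- the code
  let Φ : LL D →ₗ[k] (I → k) := LinearMap.pi fun φ => φ.1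
  have hzI : ∀ f : LL D, f ≠ 0 → Nat.card {x : I // Φ f x = 0} ≤ r := by
    intro f hf
    rw [Nat.card_eq_fintype_card, Fintype.card_subtype]
    -- choose representatives
    have hrep : ∀ φ : I, ∃ w ∈ X0, ev w = φ.1 := fun φ => by
      have := φ.2
      rwa [Finset.mem_image] at this
    choose rep hrep1 hrep2 using hrep
    refine le_trans ?_ (hzero f hf)
    apply Finset.card_le_card_of_injOn rep
    · intro φ hφ
      simp only [Finset.coe_filter, Finset.mem_univ, true_and, Set.mem_setOf_eq] at hφ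
      rw [Finset.mem_coe, Finset.mem_filter]
      refine ⟨hrep1 φ, ?_⟩
      rw [hrep2]
      exact hφ
    · intro a _ b _ hab
      apply Subtype.ext
      rw [← hrep2 a, ← hrep2 b, hab]
  have hΦ : Function.Injective Φ := by
    rw [injective_iff_map_eq_zero]
    intro f hf
    by_contra hf0
    have h1 := hzI f hf0
    have h2 : Nat.card {x : I // Φ f x = 0} = I.card := by
      rw [Nat.card_eq_fintype_card, Fintype.card_subtype, Finset.filter_true_of_mem, Finset.card_univ,
        Fintype.card_coe]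
      intro x _
      rw [hf]; rfl
    omega
  have hle : LL D' ≤ LL D := by
    apply LL_mono
    rw [Finsupp.single_le_single]
    omega
  let ι : LL D' →ₗ[k] LL D := Submodule.inclusion hle
  have hne : Nonempty I := by
    obtain ⟨φ, hφ⟩ := Finset.card_pos.1 (show 0 < I.card by omega)
    exact ⟨⟨φ, hφ⟩⟩
  refine ⟨I, inferInstance, hne, LinearMap.range (Φ.comp ι), LinearMap.range Φ, ?_, ?_, ?_, ?_, ?_, ?_⟩
  · rintro _ ⟨f, rfl⟩ _ ⟨g, rfl⟩
    have hmul : (f : F) * (g : F) ∈ LL D := by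
      have hf := mem_LL_iff_Loc.1 f.2
      have hg := mem_LL_iff_Loc.1 g.2
      rw [mem_LL_iff_Loc]
      intro w
      refine ((hf w).mul (hg w)).mono ?_
      apply le_of_eq
      simp only [D, D', Finsupp.single_apply]
      split_ifs
      · rw [hs, hr]; push_cast; ring
      · ring
    refine ⟨⟨_, hmul⟩, ?_⟩
    funext φ
    obtain ⟨w, hw, hwφ⟩ := Finset.mem_image.1 φ.2
    show φ.1 _ = φ.1 (ι f) * φ.1 (ι g)
    rw [← hwφ]
    apply (algebraMap k w.RF).injective
    rw [map_mul, (hev w hw _).2, (hev w hw _).2, (hev w hw _).2]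
    exact w.red_mul (hev w hw (ι f)).1 (hev w hw (ι g)).1
  · intro x y hxy
    obtain ⟨wx, hwx, hx⟩ := Finset.mem_image.1 x.2
    obtain ⟨wy, hwy, hy⟩ := Finset.mem_image.1 y.2
    have h1 : x.1 ≠ y.1 := fun h => hxy (Subtype.ext h)
    obtain ⟨f, hf⟩ : ∃ f, x.1 f ≠ y.1 f := by
      by_contra hc
      push Not at hc
      exact h1 (LinearMap.ext hc)
    refine ⟨Φ (f - (x.1 f) • ⟨1, hone⟩), ⟨_, rfl⟩, ?_, ?_⟩
    · show x.1 (f - (x.1 f) • ⟨1, hone⟩) = 0
      rw [map_sub, map_smul]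
      have : x.1 ⟨1, hone⟩ = 1 := by rw [← hx]; exact hev1 wx hwx
      rw [this, smul_eq_mul, mul_one, sub_self]
    · show y.1 (f - (x.1 f) • ⟨1, hone⟩) ≠ 0
      rw [map_sub, map_smul]
      have : y.1 ⟨1, hone⟩ = 1 := by rw [← hy]; exact hev1 wy hwy
      rw [this, smul_eq_mul, mul_one]
      exact sub_ne_zero.2 (Ne.symm hf)
  · rintro _ ⟨f, rfl⟩ hne
    apply hzI
    rintro rfl
    exact hne (map_zero _)
  · rw [LinearMap.finrank_range_of_inj hΦ]
    have := ell_single_le P0 hP0 r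
    have h2 : ((finrank k (LL D) : ℕ) : ℤ) ≤ r + 1 := this
    omega
  · have hinj : Function.Injective (Φ.comp ι) := hΦ.comp (Submodule.inclusion_injective hle)
    rw [LinearMap.finrank_range_of_inj hinj]
    have h1 := hγ D'
    unfold phi at h1
    rw [show ddeg D' = s * 1 by rw [ddeg_single, hP0]; simp] at h1
    unfold ell at h1
    rw [hs] at h1
    push_cast at h1
    have : (γ + 2 : ℤ) ≤ (finrank k (LL D') : ℕ) := by linarith
    exact_mod_cast this
  · rw [Fintype.card_coe]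
    omega

end

end Pool.Agent.W132.AG
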