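import Pool.Agent.W132.AG.Appr

/-! The conorm of a divisor. -/

set_option autoImplicit false
set_option linter.all false
set_option linter.overlappingInstances false

open Module FF Pool.Agent.H525R3.FFp

namespace Pool.Agent.W132.AG

section
variable {k F E : Type*} [Field k] [Field F] [Field E] [Algebra k F] [Algebra k E] [Algebra F E]
  [IsScalarTower k F E] [FiniteDimensional F E] [Algebra.IsSeparable F E]

variable (F) in
noncomputable def und (w : Place k E) : Place k F := (exists_over_alg (K := F) w).choose

variable (F) in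
noncomputable def eI (w : Place k E) : ℕ := (exists_over_alg (K := F) w).choose_spec.choose

theorem over_und (w : Place k E) : Over w (und F w) (eI F w) :=
  (exists_over_alg (K := F) w).choose_spec.choose_spec

theorem und_eq {w : Place k E} {w0 : Place k F} {e : ℕ} (h : Over w w0 e) : und F w = w0 :=
  Over_unique_place (over_und w) h

theorem eI_eq {w : Place k E} {w0 : Place k F} {e : ℕ} (h : Over w w0 e) : eI F w = e := by
  have h1 := over_und (F := F) w
  rw [und_eq h] at h1
  exact h1.unique h

variable (E) in
noncomputable def fibS (w0 : Place k F) : Finset (Place k E) := (fibre (K' := E) w0).choose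

theorem mem_fibS {w0 : Place k F} {w : Place k E} : w ∈ fibS E w0 ↔ und F w = w0 := by
  obtain ⟨Em, h1, h2, h3⟩ := (fibre (K' := E) w0).choose_spec
  constructor
  · intro hw
    exact und_eq (h2 w hw).1
  · intro h
    have h4 := over_und (F := F) w
    rw [h] at h4
    exact h1 w _ h4

theorem sum_fibS (w0 : Place k F) : ∑ w ∈ fibS E w0, eI F w * w.deg = finrank F E * w0.deg := by
  obtain ⟨Em, h1, h2, h3⟩ := (fibre (K' := E) w0).choose_spec
  rw [← h3]
  refine Finset.sum_congr rfl fun w hw => ?_
  rw [eI_eq (h2 w hw).1]

theorem deg_le_of_mem {w0 : Place k F} {w : Place k E} (hw : w ∈ fibS E w0) : w0.deg ≤ w.deg := by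
  obtain ⟨Em, h1, h2, h3⟩ := (fibre (K' := E) w0).choose_spec
  exact (h2 w hw).2

theorem deg_und_le (w : Place k E) : (und F w).deg ≤ w.deg :=
  deg_le_of_mem (mem_fibS.2 rfl)

variable (k F E) in
/-- The conorm. -/
noncomputable def con : (Place k F →₀ ℤ) →+ (Place k E →₀ ℤ) :=
  Finsupp.liftAddHom fun w0 => ∑ w ∈ fibS E w0,
    (Finsupp.singleAddHom w).comp (AddMonoidHom.mulLeft ((eI F w : ℕ) : ℤ))

theorem con_single (w0 : Place k F) (n : ℤ) :
    con k F E (Finsupp.single w0 n) = ∑ w ∈ fibS E w0, Finsupp.single w ((eI F w : ℤ) * n) := by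
  unfold con
  rw [Finsupp.liftAddHom_apply_single, AddMonoidHom.finsetSum_apply]
  rfl

theorem con_apply (D : Place k F →₀ ℤ) (w : Place k E) :
    con k F E D w = eI F w * D (und F w) := by
  classical
  have key : (Finsupp.applyAddHom w).comp (con k F E) =
      (AddMonoidHom.mulLeft ((eI F w : ℕ) : ℤ)).comp (Finsupp.applyAddHom (und F w)) := by
    apply Finsupp.addHom_ext
    intro w0 n
    simp only [AddMonoidHom.coe_comp, Function.comp_apply, Finsupp.applyAddHom_apply,
      AddMonoidHom.coe_mulLeft]
    rw [con_single, Finsupp.finsetSum_apply]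
    simp only [Finsupp.single_apply]
    by_cases h : und F w = w0
    · rw [if_pos h.symm, Finset.sum_eq_single w]
      · simp
      · intro b _ hb; rw [if_neg hb]
      · intro hw; exact absurd (mem_fibS.2 h) hw
    · rw [if_neg (Ne.symm h), mul_zero]
      apply Finset.sum_eq_zero
      intro b hb
      rw [if_neg]
      rintro rfl
      exact h (mem_fibS.1 hb)
  have := DFunLike.congr_fun key D
  simpa using this

end

section
variable {k F E : Type*} [Field k] [Field F] [Field E] [Algebra k F] [Algebra k E] [Algebra F E]
  [IsScalarTower k F E] [FiniteDimensional F E] [Algebra.IsSeparable F E] [PerfectField k]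
  [IsFF k F] [IsFF k E]

variable (k E) in
noncomputable def ddegHom : (Place k E →₀ ℤ) →+ ℤ where
  toFun := ddeg
  map_zero' := ddeg_zero
  map_add' := ddeg_add

theorem ddeg_con (D : Place k F →₀ ℤ) : ddeg (con k F E D) = finrank F E * ddeg D := by
  have key : (ddegHom k E).comp (con k F E) =
      (AddMonoidHom.mulLeft ((finrank F E : ℕ) : ℤ)).comp (ddegHom k F) := by
    apply Finsupp.addHom_ext
    intro w0 n
    simp only [AddMonoidHom.coe_comp, Function.comp_apply, AddMonoidHom.coe_mulLeft]
    rw [con_single, map_sum]
    simp only [ddegHom, AddMonoidHom.coe_mk, ZeroHom.coe_mk, ddeg_single]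
    have := sum_fibS (E := E) w0
    calc ∑ w ∈ fibS E w0, (eI F w : ℤ) * n * w.deg
        = n * ((∑ w ∈ fibS E w0, eI F w * w.deg : ℕ) : ℤ) := by
          push_cast
          rw [Finset.mul_sum]
          refine Finset.sum_congr rfl fun w _ => by ring
      _ = _ := by rw [this]; push_cast; ring
  have := DFunLike.congr_fun key D
  exact this

end

end Pool.Agent.W132.AG
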