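import Pool.Agent.W132.AG.Rat

/-! Steps of a tower inside a big field. -/

set_option autoImplicit false
set_option linter.all false
set_option linter.overlappingInstances false

open Module FF Pool.Agent.H525R3.FFp Polynomial

namespace Pool.Agent.W132.AG

section
variable {k F E : Type} [Field k] [Field F] [Field E] [Algebra k F] [Algebra k E] [Algebra F E]
  [IsScalarTower k F E]

theorem isFF_of_ext [h : IsFF k F] [FiniteDimensional F E] : IsFF k E := by
  constructor
  · have h1 := h.ess
    have h2 : Algebra.EssFiniteType F E := inferInstance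
    exact Algebra.EssFiniteType.comp k F E
  · have h1 := _root_.trdeg_add_eq k F (A := E)
    have h2 : Algebra.trdeg F E = 0 := _root_.trdeg_eq_zero_iff.2 inferInstance
    rw [← h1, h2, h.trdeg, add_zero]

end

section
variable {k K : Type} [Field k] [Field K] [Algebra k K]

theorem ext_data {e : ℕ} {A B : IntermediateField k K} (h : A ≤ B) {y f : K} (hyB : y ∈ B)
    (hB : ∀ C : IntermediateField k K, A ≤ C → y ∈ C → B ≤ C) (hfA : f ∈ A) (hyf : wp e y = f) :
    letI : Algebra A B := (IntermediateField.inclusion h).toRingHom.toAlgebra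
    IsScalarTower k A B ∧ IntermediateField.adjoin A {(⟨y, hyB⟩ : B)} = ⊤ ∧
      wp e (⟨y, hyB⟩ : B) = algebraMap A B ⟨f, hfA⟩ := by
  letI : Algebra A B := (IntermediateField.inclusion h).toRingHom.toAlgebra
  haveI : IsScalarTower k A B := IsScalarTower.of_algebraMap_eq (fun c => rfl)
  refine ⟨inferInstance, ?_, ?_⟩
  · set T := IntermediateField.adjoin A {(⟨y, hyB⟩ : B)} with hT
    rw [eq_top_iff]
    intro b _
    let C : IntermediateField k K := (T.restrictScalars k).map B.val
    have h1 : A ≤ C := by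
      intro a ha
      exact ⟨⟨a, h ha⟩, T.algebraMap_mem ⟨a, ha⟩, rfl⟩
    have h2 : y ∈ C := ⟨⟨y, hyB⟩, IntermediateField.mem_adjoin_simple_self A _, rfl⟩
    obtain ⟨t, ht, hb⟩ := hB C h1 h2 b.2
    have : t = b := Subtype.ext hb
    rw [← this]
    exact ht
  · apply Subtype.ext
    exact hyf

/-- all places of `A` are weak for `f` -/
def WeakK (e : ℕ) (A : IntermediateField k K) (f : K) : Prop :=
  ∀ (hf : f ∈ A) (w : Place k A), Weak e (⟨f, hf⟩ : A) w

variable [Fintype k] [CharP k 2]

theorem step_weak {e : ℕ} (hk : Fintype.card k = 2 ^ e * 2 ^ e) {A B : IntermediateField k K}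
    (h : A ≤ B) {y f1 : K} (hyB : y ∈ B)
    (hB : ∀ C : IntermediateField k K, A ≤ C → y ∈ C → B ≤ C) (hf1 : f1 ∈ A) (hyf : wp e y = f1)
    (hA : IsFF k A) {f2 : K} (hf2 : f2 ∈ A) (h1 : WeakK e A f1) (h2 : WeakK e A f2) :
    IsFF k B ∧ WeakK e B f2 := by
  letI : Algebra A B := (IntermediateField.inclusion h).toRingHom.toAlgebra
  obtain ⟨i1, i2, i3⟩ := ext_data h hyB hB hf1 hyf
  haveI : FiniteDimensional A B := as_finite hk _ i2 i3
  haveI : IsGalois A B := as_galois hk _ i2 i3
  haveI : Algebra.IsSeparable A B := inferInstance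
  haveI : IsFF k B := isFF_of_ext (F := A)
  refine ⟨inferInstance, fun hf w => ?_⟩
  exact weak_up hk i2 i3 w (h1 hf1 _) (h2 hf2 _)

end

end Pool.Agent.W132.AG
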