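import Pool.Agent.W132.AG.Codes
import Pool.Agent.W132.Cay.Inv

/-! Cayley local spectral expanders of polynomial degree. -/

set_option autoImplicit false
set_option linter.all false
set_option linter.overlappingInstances false

open Module FF Pool.Agent.H525R3.FFp Pool.Agent.W132.Cay

namespace Pool.Agent.W132.AG

theorem cayley_poly (lam : ℝ) (e : ℕ) (he : 5 ≤ e) (hlam : 8 ≤ lam * (2 ^ e - 10)) (n0 : ℕ) :
    ∃ n ≥ n0, ∃ (X : Complex2 (Fin n → ZMod 2)) (S : Finset (Fin n → ZMod 2)),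
      IsCayley X S ∧ TriInvariant X ∧ X.IsLocalSpectralExpander lam ∧ S.card ≤ n ^ (8 * e) := by
  classical
  -- the field of constants
  let k := GaloisField 2 (2 * e)
  haveI : Fact (Nat.Prime 2) := ⟨Nat.prime_two⟩
  haveI : Finite k := inferInstanceAs (Finite (GaloisField 2 (2 * e)))
  letI : Fintype k := Fintype.ofFinite k
  have hk : Fintype.card k = 2 ^ e * 2 ^ e := by
    rw [← Nat.card_eq_fintype_card, GaloisField.card 2 (2 * e) (by omega), ← pow_add]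
    congr 1
    ring
  haveI : CharP k 2 := inferInstanceAs (CharP (GaloisField 2 (2 * e)) 2)
  have h32 : 32 ≤ 2 ^ e := by
    calc 32 = 2 ^ 5 := by norm_num
      _ ≤ 2 ^ e := Nat.pow_le_pow_right (by norm_num) he
  -- the function field
  obtain ⟨F, i1, i2, i3, hphi, A, hA, hA2⟩ := tower k hk n0
  set Γ : ℕ := 2 ^ e * (2 ^ e) ^ n0 with hΓ
  have hΓpos : 1 ≤ Γ := Nat.one_le_iff_ne_zero.2 (by positivity)
  have hAcard : A.card + Γ = 2 ^ e * Γ := by
    rw [hA, hΓ, ← add_mul, Nat.sub_add_cancel (Nat.le_mul_of_pos_left _ (by positivity))]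
    ring
  have hA32 : 32 * Γ ≤ 2 ^ e * Γ := Nat.mul_le_mul_right _ h32
  obtain ⟨X, j1, j2, L, G, hLG, hsep, hz, hG, hL, hX⟩ := codes_aux (k := k) (F := F) (γ := Γ)
    (by intro D; have := hphi D; rw [hΓ]; push_cast; exact this) A hA2 (by omega)
  have hq : (32 : ℝ) ≤ 2 ^ e := by exact_mod_cast h32
  have hlam0 : 0 < lam := by
    by_contra hc
    push Not at hc
    nlinarith
  have hXr : ((2 : ℝ) ^ e - 10) * Γ ≤ Fintype.card X := by
    have h1 : 2 ^ e * Γ ≤ Fintype.card X + (4 * Γ + 4) + 1 + Γ := by omega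
    have h2 : (2 : ℝ) ^ e * Γ ≤ Fintype.card X + (4 * Γ + 4) + 1 + Γ := by exact_mod_cast h1
    have h3 : (1 : ℝ) ≤ Γ := by exact_mod_cast hΓpos
    linarith
  have hz' : ∀ g ∈ G, g ≠ 0 → (Nat.card {x : X // g x = 0} : ℝ) ≤ lam * Fintype.card X := by
    intro g hg hg0
    have h1 : ((Nat.card {x : X // g x = 0} : ℕ) : ℝ) ≤ ((4 * Γ + 4 : ℕ) : ℝ) := by
      exact_mod_cast hz g hg hg0
    have h3 : (1 : ℝ) ≤ Γ := by exact_mod_cast hΓpos
    have h4 : lam * (((2 : ℝ) ^ e - 10) * Γ) ≤ lam * Fintype.card X :=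
      mul_le_mul_of_nonneg_left hXr hlam0.le
    have h5 : 8 * (Γ : ℝ) ≤ lam * (2 ^ e - 10) * Γ := mul_le_mul_of_nonneg_right hlam (by positivity)
    push_cast at h1
    linarith
  have hk4 : 4 ≤ Fintype.card k := by rw [hk]; nlinarith
  obtain ⟨n, Y, S, hY1, hY2, hY3, hY4, hn⟩ := code_to_complex' k hk4 L G hLG hsep lam hz'
  have hmax : max lam (1 / ((Fintype.card k : ℝ) - 2)) = lam := by
    apply max_eq_left
    rw [hk]
    push_cast
    have h1 : (0 : ℝ) < 2 ^ e - 10 := by linarith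
    have h2 : (2 : ℝ) ^ e - 10 ≤ 2 ^ e * 2 ^ e - 2 := by nlinarith
    rw [div_le_iff₀ (by linarith)]
    have h3 : lam * (2 ^ e - 10) ≤ lam * (2 ^ e * 2 ^ e - 2) := mul_le_mul_of_nonneg_left h2 hlam0.le
    linarith
  rw [hmax] at hY3
  have hn2 : 2 ^ (Γ + 2) ≤ n := (Nat.pow_le_pow_right (by norm_num) hL).trans hn
  refine ⟨n, ?_, Y, S, hY1, hY2, hY3, ?_⟩
  · have h1 : n0 < (2 ^ e) ^ n0 := Nat.lt_pow_self (by omega)
    have h2 : (2 ^ e) ^ n0 ≤ Γ := Nat.le_mul_of_pos_left _ (by positivity)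
    have h3 : Γ + 2 < 2 ^ (Γ + 2) := Nat.lt_two_pow_self
    omega
  · calc S.card ≤ Fintype.card k ^ (finrank k G + 1) := hY4
      _ ≤ Fintype.card k ^ (4 * Γ + 5 + 1) := Nat.pow_le_pow_right (by omega) (by omega)
      _ = 2 ^ ((e + e) * (4 * Γ + 6)) := by rw [hk, ← pow_add, ← pow_mul]
      _ ≤ 2 ^ ((Γ + 2) * (8 * e)) := by
          apply Nat.pow_le_pow_right (by norm_num)
          nlinarith
      _ = (2 ^ (Γ + 2)) ^ (8 * e) := by rw [pow_mul]
      _ ≤ n ^ (8 * e) := Nat.pow_le_pow_left hn2 _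

end Pool.Agent.W132.AG
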