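import Pool.Agent.W132.AG.Conorm

/-! The genus bound for an extension generated by an element with controlled local behaviour. -/

set_option autoImplicit false
set_option linter.all false
set_option linter.overlappingInstances false

open Module FF Pool.Agent.H525R3.FFp Polynomial

namespace Pool.Agent.W132.AG

theorem taylor_coeff_top {F : Type*} [Field F] (r : F) {a : F[X]} {i : ℕ} (h : a.degree < (i + 1 : ℕ)) :
    (taylor r a).coeff i = a.coeff i := by
  by_cases h1 : a.degree < (i : ℕ)
  · rw [coeff_eq_zero_of_degree_lt h1, coeff_eq_zero_of_degree_lt (by rwa [degree_taylor])]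
  · have h0 : a ≠ 0 := by
      rintro rfl
      exact h1 (by rw [degree_zero]; exact WithBot.bot_lt_coe _)
    rw [← natDegree_lt_iff_degree_lt h0] at h h1
    have h3 : a.natDegree = i := by omega
    rw [← h3, coeff_taylor_natDegree]
    rfl

section
variable {k F E : Type*} [Field k] [Field F] [Field E] [Algebra k F] [Algebra k E] [Algebra F E]
  [IsScalarTower k F E] [FiniteDimensional F E] [Algebra.IsSeparable F E] [PerfectField k]
  [IsFF k F] [IsFF k E]

/-- the divisor controlling the coefficient of index `j` -/
noncomputable def DD (D R : Place k F →₀ ℤ) (j : ℕ) : Place k F →₀ ℤ := if j = 0 then D else D - R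

/-- polynomials of degree `< i` with local conditions -/
noncomputable def VV (z : Place k F → F) (D R : Place k F →₀ ℤ) (i : ℕ) : Submodule k F[X] where
  carrier := {a | a.degree < (i : ℕ) ∧ ∀ (w : Place k F) (j : ℕ), Loc w (DD D R j w) ((taylor (z w) a).coeff j)}
  add_mem' := by
    rintro a b ⟨ha, ha'⟩ ⟨hb, hb'⟩
    refine ⟨(degree_add_le _ _).trans_lt (max_lt ha hb), fun w j => ?_⟩
    rw [map_add, coeff_add]
    exact (ha' w j).add (hb' w j)
  zero_mem' := by
    refine ⟨by rw [degree_zero]; exact WithBot.bot_lt_coe _, fun w j => ?_⟩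
    rw [map_zero, coeff_zero]
    exact Loc.zero
  smul_mem' := by
    rintro c a ⟨ha, ha'⟩
    refine ⟨(degree_smul_le _ _).trans_lt ha, fun w j => ?_⟩
    have h1 : c • a = (algebraMap k F c) • a := (algebraMap_smul F c a).symm
    have : taylor (z w) (c • a) = c • taylor (z w) a := by
      rw [h1, map_smul, algebraMap_smul]
    rw [this, coeff_smul]
    exact (ha' w j).smul c

theorem mem_VV {z : Place k F → F} {D R : Place k F →₀ ℤ} {i : ℕ} {a : F[X]} :
    a ∈ VV z D R i ↔ a.degree < (i : ℕ) ∧
      ∀ (w : Place k F) (j : ℕ), Loc w (DD D R j w) ((taylor (z w) a).coeff j) := Iff.rfl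

theorem VV_mono {z : Place k F → F} {D R : Place k F →₀ ℤ} {i j : ℕ} (h : i ≤ j) :
    VV z D R i ≤ VV z D R j := by
  rintro a ⟨ha, ha'⟩
  exact ⟨ha.trans_le (by exact_mod_cast h), ha'⟩

/-- the leading coefficient -/
noncomputable def lead (z : Place k F → F) (D R : Place k F →₀ ℤ) (i : ℕ) :
    VV z D R (i + 1) →ₗ[k] LL (DD D R i) where
  toFun a := ⟨a.1.coeff i, by
    rw [mem_LL_iff_Loc]
    intro w
    have := a.2.2 w i
    rwa [taylor_coeff_top _ a.2.1] at this⟩
  map_add' a b := Subtype.ext (by simp)
  map_smul' c a := Subtype.ext (by simp)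

theorem loc_finite (D : Place k F →₀ ℤ) (g : F) : {w : Place k F | ¬ Loc w (D w) g}.Finite := by
  have h1 := finite_support (k := k) g
  refine (h1.union D.finite_support).subset ?_
  intro w hw
  by_contra hc
  simp only [Set.mem_union, Set.mem_setOf_eq, not_or, Function.mem_support, ne_eq, not_not] at hc
  apply hw
  right
  rw [hc.1, hc.2]; simp

theorem lead_surjective {γ N : ℤ} (hN : ∀ D : Place k F →₀ ℤ, N ≤ ddeg D → ell D = ddeg D - γ)
    (z : Place k F →₀ F) (D R : Place k F →₀ ℤ) (hD : N ≤ ddeg D) (hDR : N ≤ ddeg (D - R)) (i : ℕ) :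
    Function.Surjective (lead (fun w => z w) D R i) := by
  classical
  rintro ⟨c, hc⟩
  rw [mem_LL_iff_Loc] at hc
  have key : ∀ m : ℕ, m ≤ i → ∃ a : F[X], a.degree < (i + 1 : ℕ) ∧ a.coeff i = c ∧
      ∀ (w : Place k F) (j : ℕ), i - m ≤ j → Loc w (DD D R j w) ((taylor (z w) a).coeff j) := by
    intro m
    induction m with
    | zero =>
      intro _
      refine ⟨monomial i c, ?_, by simp, ?_⟩
      · exact (degree_monomial_le _ _).trans_lt (by exact_mod_cast Nat.lt_succ_self i)
      · intro w j hj
        rcases Nat.lt_or_ge i j with h | h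
        · rw [coeff_eq_zero_of_degree_lt]
          · exact Loc.zero
          · rw [degree_taylor]
            exact (degree_monomial_le _ _).trans_lt (by exact_mod_cast h)
        · have hji : j = i := by omega
          subst hji
          rw [taylor_coeff_top _ ((degree_monomial_le _ _).trans_lt (by exact_mod_cast Nat.lt_succ_self j))]
          simpa using hc w
    | succ m ih =>
      intro hm
      obtain ⟨a, ha, hac, hloc⟩ := ih (by omega)
      set j0 := i - (m + 1) with hj0
      have hDj : N ≤ ddeg (DD D R j0) := by
        unfold DD; split_ifs <;> assumption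
      -- the finite set of bad places
      have hfin : {w : Place k F | ¬ Loc w (DD D R j0 w) ((taylor (z w) a).coeff j0)}.Finite := by
        refine ((loc_finite (DD D R j0) (a.coeff j0)).union z.finite_support).subset ?_
        intro w hw
        by_contra hc'
        simp only [Set.mem_union, Set.mem_setOf_eq, not_or, Function.mem_support, ne_eq, not_not] at hc'
        apply hw
        rw [hc'.2, taylor_zero]
        exact hc'.1
      obtain ⟨g, hg1, hg2⟩ := approx hN (DD D R j0) hDj hfin.toFinset
        (fun w => (taylor (z w) a).coeff j0)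
      refine ⟨a + monomial j0 g, ?_, ?_, ?_⟩
      · refine (degree_add_le _ _).trans_lt (max_lt ha ?_)
        exact (degree_monomial_le _ _).trans_lt (by exact_mod_cast (by omega : j0 < i + 1))
      · rw [coeff_add, hac, coeff_monomial, if_neg (by omega), add_zero]
      · intro w j hj
        rw [map_add, coeff_add]
        rcases Nat.lt_or_ge j0 j with h | h
        · have : (taylor (z w) (monomial j0 g)).coeff j = 0 := by
            apply coeff_eq_zero_of_degree_lt
            rw [degree_taylor]
            exact (degree_monomial_le _ _).trans_lt (by exact_mod_cast h)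
          rw [this, add_zero]
          exact hloc w j (by omega)
        · have hjj : j = j0 := by omega
          rw [hjj]
          have : (taylor (z w) (monomial j0 g)).coeff j0 = g := by
            rw [taylor_coeff_top _ ((degree_monomial_le _ _).trans_lt (by exact_mod_cast Nat.lt_succ_self j0))]
            simp
          rw [this]
          by_cases hw : w ∈ hfin.toFinset
          · have := hg1 w hw
            rwa [add_comm] at this
          · have h1 := hg2 w hw
            rw [Set.Finite.mem_toFinset, Set.mem_setOf_eq, not_not] at hw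
            exact hw.add h1
  obtain ⟨a, ha, hac, hloc⟩ := key i le_rfl
  refine ⟨⟨a, ha, fun w j => hloc w j (by omega)⟩, ?_⟩
  exact Subtype.ext hac

/-- evaluation at `y` -/
theorem aeval_mem {q : ℕ} (y : E) (z : Place k F → F) (D R : Place k F →₀ ℤ)
    (H : ∀ (w : Place k E) (j : ℕ), 1 ≤ j → j < q →
      Loc w (eI F w * R (und F w)) ((y - algebraMap F E (z (und F w))) ^ j))
    {a : F[X]} (ha : a ∈ VV z D R q) : aeval y a ∈ LL (con k F E D) := by
  rw [mem_LL_iff_Loc]
  intro w
  set w0 := und F w with hw0
  set e := eI F w with he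
  have hov : Over w w0 e := over_und w
  have hOv : ∀ {n : ℤ} {f : F}, Loc w0 n f → Loc w (e * n) (algebraMap F E f) := by
    intro n f hf
    rcases hf with rfl | hf
    · left; rw [map_zero]
    · right
      rw [hov.2]
      have : (0 : ℤ) ≤ e := by positivity
      nlinarith
  have h1 : aeval y a = aeval (y - algebraMap F E (z w0)) (taylor (z w0) a) := by
    rw [taylor_apply, aeval_comp]
    simp
  rw [h1]
  have hdeg : (taylor (z w0) a).natDegree < q ∨ taylor (z w0) a = 0 := by
    by_cases h0 : taylor (z w0) a = 0
    · exact Or.inr h0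
    · left
      rw [natDegree_lt_iff_degree_lt h0, degree_taylor]
      exact ha.1
  rcases hdeg with hdeg | h0
  · rw [aeval_eq_sum_range' hdeg]
    apply Loc.sum
    intro j hj
    rw [Finset.mem_range] at hj
    rw [Algebra.smul_def, con_apply]
    have h2 := hOv (ha.2 w0 j)
    by_cases hj0 : j = 0
    · subst hj0
      rw [pow_zero, mul_one]
      simpa [DD] using h2
    · have h3 := H w j (by omega) hj
      have h4 := h2.mul h3
      refine h4.mono ?_
      simp only [DD, if_neg hj0, Finsupp.sub_apply]
      apply le_of_eq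
      ring
  · rw [h0, map_zero]
    exact Loc.zero

theorem ell_con_ge {q : ℕ} (hq : 0 < q) (y : E) (hy : q ≤ (minpoly F y).natDegree)
    {γ N : ℤ} (hN : ∀ D : Place k F →₀ ℤ, N ≤ ddeg D → ell D = ddeg D - γ)
    (z : Place k F →₀ F) (D R : Place k F →₀ ℤ) (hD : N ≤ ddeg D) (hDR : N ≤ ddeg (D - R))
    (H : ∀ (w : Place k E) (j : ℕ), 1 ≤ j → j < q →
      Loc w (eI F w * R (und F w)) ((y - algebraMap F E (z (und F w))) ^ j)) :
    ell D + (q - 1) * ell (D - R) ≤ ell (con k F E D) := by
  -- the evaluation map
  let ι : VV (fun w => z w) D R q →ₗ[k] LL (con k F E D) :=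
    { toFun := fun a => ⟨aeval y a.1, aeval_mem y _ D R H a.2⟩
      map_add' := fun a b => Subtype.ext (by simp)
      map_smul' := fun c a => Subtype.ext (by
        simp only [SetLike.val_smul, RingHom.id_apply]
        rw [← algebraMap_smul F c a.1, map_smul, algebraMap_smul]) }
  have hι : Function.Injective ι := by
    rw [injective_iff_map_eq_zero]
    rintro ⟨a, ha⟩ h
    have h1 : aeval y a = 0 := congrArg Subtype.val h
    apply Subtype.ext
    show a = 0
    by_contra h0
    have h2 := minpoly.degree_le_of_ne_zero F y h0 h1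
    have h3 : a.natDegree < q := (natDegree_lt_iff_degree_lt h0).2 ha.1
    have h4 := natDegree_le_natDegree h2
    omega
  have hfinq : FiniteDimensional k (VV (fun w => z w) D R q) := Module.Finite.of_injective ι hι
  have hfin : ∀ i ≤ q, FiniteDimensional k (VV (fun w => z w) D R i) := fun i hi =>
    Module.Finite.of_injective (Submodule.inclusion (VV_mono hi)) (Submodule.inclusion_injective _)
  have hrec : ∀ i, i ≤ q → ∑ j ∈ Finset.range i, ell (DD D R j) ≤
      finrank k (VV (fun w => z w) D R i) := by
    intro i
    induction i with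
    | zero => intro _; simp
    | succ i ih =>
      intro hi
      have ih' := ih (by omega)
      have f1 := hfin (i + 1) hi
      have f2 := hfin i (by omega)
      rw [Finset.sum_range_succ]
      have h1 := LinearMap.finrank_range_add_finrank_ker (lead (fun w => z w) D R i)
      have h2 : LinearMap.range (lead (fun w => z w) D R i) = ⊤ :=
        LinearMap.range_eq_top.2 (lead_surjective hN z D R hD hDR i)
      rw [h2, finrank_top] at h1
      have h3 : finrank k (VV (fun w => z w) D R i) ≤
          finrank k (LinearMap.ker (lead (fun w => z w) D R i)) := by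
        let φ : VV (fun w => z w) D R i →ₗ[k] LinearMap.ker (lead (fun w => z w) D R i) :=
          LinearMap.codRestrict _ (Submodule.inclusion (VV_mono (Nat.le_succ i))) (by
            intro a
            rw [LinearMap.mem_ker]
            apply Subtype.ext
            exact coeff_eq_zero_of_degree_lt a.2.1)
        apply LinearMap.finrank_le_finrank_of_injective (f := φ)
        intro a b h
        have h5 : ((φ a : LinearMap.ker (lead (fun w => z w) D R i)) : VV (fun w => z w) D R (i + 1)).1 =
          ((φ b : LinearMap.ker (lead (fun w => z w) D R i)) : VV (fun w => z w) D R (i + 1)).1 := by rw [h]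
        exact Subtype.ext h5
      unfold ell at ih' ⊢
      push_cast at ih' ⊢
      omega
  have h1 := hrec q le_rfl
  have h2 : finrank k (VV (fun w => z w) D R q) ≤ finrank k (LL (con k F E D)) :=
    LinearMap.finrank_le_finrank_of_injective hι
  have h3 : ∑ j ∈ Finset.range q, ell (DD D R j) = ell D + (q - 1) * ell (D - R) := by
    obtain ⟨p, rfl⟩ : ∃ p, q = p + 1 := ⟨q - 1, by omega⟩
    rw [Finset.sum_range_succ']
    have : ∀ j ∈ Finset.range p, ell (DD D R (j + 1)) = ell (D - R) := by
      intro j _; simp [DD]
    rw [Finset.sum_congr rfl this]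
    simp [DD]
    ring
  rw [h3] at h1
  refine h1.trans ?_
  unfold ell
  exact_mod_cast h2

/-- The genus bound. -/
theorem genus_step {q : ℕ} (hq : 0 < q) (hfr : finrank F E = q) (y : E)
    (hy : q ≤ (minpoly F y).natDegree) (z : Place k F →₀ F) (R : Place k F →₀ ℤ) (hR : 0 ≤ R)
    (H : ∀ (w : Place k E) (j : ℕ), 1 ≤ j → j < q →
      Loc w (eI F w * R (und F w)) ((y - algebraMap F E (z (und F w))) ^ j))
    {γ : ℤ} (hγ : ∀ D : Place k F →₀ ℤ, phi D ≤ γ) (D' : Place k E →₀ ℤ) :
    phi D' ≤ q * γ + (q - 1) * ddeg R := by
  classical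
  obtain ⟨γ0, N, hγ0, hN⟩ := riemann k F
  obtain ⟨P1, -⟩ := exists_place (k := k) (K := F)
  let D0 : Place k F →₀ ℤ := ∑ w ∈ D'.support, Finsupp.single (und F w) |D' w|
  have hD0 : 0 ≤ D0 := by
    apply Finset.sum_nonneg
    intro w _
    intro P
    rw [Finsupp.single_apply]
    split_ifs
    · exact abs_nonneg _
    · exact le_rfl
  let M : ℕ := (N + ddeg R).toNat
  let D : Place k F →₀ ℤ := D0 + Finsupp.single P1 (M : ℤ)
  have hP1 : 0 < P1.deg := deg_pos P1
  have hDdeg : N + ddeg R ≤ ddeg D := by
    have h1 : 0 ≤ ddeg D0 := ddeg_nonneg hD0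
    rw [ddeg_add, ddeg_single]
    have h2 : (M : ℤ) ≤ M * P1.deg := by
      have : (1 : ℤ) ≤ P1.deg := by exact_mod_cast hP1
      nlinarith [Int.natCast_nonneg M]
    have h3 : N + ddeg R ≤ M := Int.self_le_toNat _
    omega
  have hR0 := ddeg_nonneg hR
  have hle : D' ≤ con k F E D := by
    intro w
    rw [con_apply]
    have he : 0 < eI F w := (over_und (F := F) w).1
    have hDw : |D' w| ≤ D (und F w) := by
      have h1 : |D' w| ≤ D0 (und F w) := by
        by_cases hw : w ∈ D'.support
        · have h2 : Finsupp.single (und F w) |D' w| ≤ D0 := by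
            apply Finset.single_le_sum (f := fun w => Finsupp.single (und F w) |D' w|) _ hw
            intro w' _ P
            rw [Finsupp.single_apply]
            split_ifs
            · exact abs_nonneg _
            · exact le_rfl
          have h3 := h2 (und F w)
          simpa using h3
        · rw [Finsupp.notMem_support_iff] at hw
          rw [hw, abs_zero]
          exact hD0 _
      refine h1.trans ?_
      simp only [D, Finsupp.add_apply]
      have : (0 : ℤ) ≤ (Finsupp.single P1 (M : ℤ)) (und F w) := by
        rw [Finsupp.single_apply]; split_ifs <;> positivity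
      omega
    have h4 : 0 ≤ D (und F w) := (abs_nonneg _).trans hDw
    have h5 : (1 : ℤ) ≤ eI F w := by exact_mod_cast he
    calc D' w ≤ |D' w| := le_abs_self _
      _ ≤ D (und F w) := hDw
      _ ≤ eI F w * D (und F w) := by nlinarith
  have h1 := phi_mono hle
  have h2 := ell_con_ge hq y hy hN z D R (by omega) (by rw [ddeg_sub]; omega) H
  have h3 := hγ D
  have h4 := hγ (D - R)
  unfold phi at h1 h3 h4 ⊢
  rw [ddeg_con, hfr] at h1
  rw [ddeg_sub] at h4
  have hq1 : (1 : ℤ) ≤ q := by exact_mod_cast hq
  have h5 : (q - 1 : ℤ) * (ddeg D - ddeg R - γ) ≤ (q - 1) * ell (D - R) :=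
    mul_le_mul_of_nonneg_left (by omega) (by omega)
  nlinarith

end

end Pool.Agent.W132.AG
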