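import Pool.Agent.H525R3.FFp.Riemann
import Pool.Agent.Helper386.D5V.Helper399_FF4

/-! Places over places in finite separable extensions of function fields. -/

set_option autoImplicit false
set_option linter.all false
set_option linter.overlappingInstances false

open Module FF Pool.Agent.H525R3.FFp

namespace Pool.Agent.W132.AG

section
variable {k K K' : Type*} [Field k] [Field K] [Field K'] [Algebra k K] [Algebra k K'] [Algebra K K']
  [IsScalarTower k K K']

theorem exists_over_alg [Algebra.IsAlgebraic K K'] (w : Place k K') :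
    ∃ (w0 : Place k K) (e : ℕ), Over w w0 e := by
  have h : ∃ f : K, w.ord (algebraMap K K' f) ≠ 0 := by
    by_contra hc
    push Not at hc
    let w' : Place K K' :=
      { ord := w.ord
        ord_zero := w.ord_zero
        ord_mul := w.ord_mul
        ord_add := w.ord_add
        ord_const := fun {c} _ => hc c
        surj := w.surj }
    obtain ⟨t, ht0, ht⟩ := w'.surj
    have := w'.ord_eq_zero_of_isAlgebraic ht0 (Algebra.IsAlgebraic.isAlgebraic t)
    omega
  obtain ⟨e, w0, h⟩ := exists_over w h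
  exact ⟨w0, e, h⟩

theorem Over_unique_place {w : Place k K'} {w0 w1 : Place k K} {e e' : ℕ} (h : Over w w0 e)
    (h' : Over w w1 e') : w0 = w1 := by
  apply Place.eq_of_le
  intro f hf h0
  have h1 := h.2 f
  have h2 := h'.2 f
  have h3 : 0 < e := h.1
  have h4 : 0 < e' := h'.1
  rw [h1] at h2
  by_contra hc
  push Not at hc
  have h5 : (e' : ℤ) * w1.ord f < 0 := mul_neg_of_pos_of_neg (by exact_mod_cast h4) hc
  have h6 : (0 : ℤ) ≤ e * w0.ord f := by positivity
  omega

/-- The finite set of places over `w0`. -/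
theorem exists_places_over_sep [Algebra.IsSeparable K K'] [FiniteDimensional K K'] (w0 : Place k K) :
    ∃ (S : Finset (Place k K')) (T : Place k K' → ℕ),
      (∀ w e, Over w w0 e → w ∈ S) ∧
      (∀ w ∈ S, ∃ (e : ℕ) (h : Over w w0 e),
        T w = e * @finrank w0.RF w.RF _ _ h.resMap.toRingHom.toAlgebra.toModule ∧ 0 < T w) ∧
      ∑ w ∈ S, T w = finrank K K' := by
  classical
  obtain ⟨t, ht0, ht⟩ := w0.surj
  have htr : w0.Reg t := Or.inr (by omega)
  have : IsDiscreteValuationRing w0.O := w0.isDVR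
  let iA : Algebra w0.O K' := ((algebraMap K K').comp w0.O.subtype).toAlgebra
  let ik : Algebra k w0.O := ((algebraMap k K).codRestrict w0.O (fun c => w0.reg_const c)).toAlgebra
  have : IsScalarTower w0.O K K' := IsScalarTower.of_algebraMap_eq fun _ => rfl
  have : IsScalarTower k w0.O K' := IsScalarTower.of_algebraMap_eq fun c => by
    rw [IsScalarTower.algebraMap_apply k K K']
    rfl
  have hirr : (⟨t, htr⟩ : w0.O) ≠ 0 := fun h => ht0 (congrArg Subtype.val h)
  have hmax : (Ideal.span {(⟨t, htr⟩ : w0.O)}).IsMaximal := by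
    have h1 : Ideal.span {(⟨t, htr⟩ : w0.O)} = IsLocalRing.maximalIdeal w0.O := by
      apply le_antisymm
      · rw [Ideal.span_le, Set.singleton_subset_iff]
        show (⟨t, htr⟩ : w0.O) ∈ IsLocalRing.maximalIdeal w0.O
        rw [IsLocalRing.mem_maximalIdeal, mem_nonunits_iff, w0.isUnit_O_iff htr]
        rintro ⟨_, h⟩
        omega
      · rintro ⟨f, hf⟩ hm
        rw [IsLocalRing.mem_maximalIdeal, mem_nonunits_iff, w0.isUnit_O_iff hf] at hm
        rw [Ideal.mem_span_singleton]
        by_cases hf0 : f = 0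
        · exact ⟨0, Subtype.ext (by simp [hf0])⟩
        · have h2 := (w0.reg_iff hf0).1 hf
          have h3 : w0.ord f ≠ 0 := fun h => hm ⟨hf0, h⟩
          have h4 : w0.Reg (f / t) := by
            right
            rw [w0.ord_div hf0 ht0, ht]
            omega
          refine ⟨⟨f / t, h4⟩, Subtype.ext ?_⟩
          show f = t * (f / t)
          field_simp
    rw [h1]
    infer_instance
  obtain ⟨S, hS, hpos, hsum⟩ := fundamental (k := k) (A := w0.O) (L := K') K
    (⟨t, htr⟩ : w0.O) hirr hmax
  refine ⟨S, fun w => (w.ord (algebraMap w0.O K' ⟨t, htr⟩)).toNat * w.relf w0.O, ?_, ?_, hsum⟩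
  · intro w e h
    rw [hS]
    refine ⟨fun a => ?_, ?_⟩
    · exact h.reg.2 a.2
    · have h1 : w.ord (algebraMap w0.O K' ⟨t, htr⟩) = e * w0.ord t := h.2 t
      rw [h1, ht]
      have := h.1
      omega
  · intro w hw
    have h1 := (hS w).1 hw
    have h2 : Over w w0 (w.ord (algebraMap K K' t)).toNat :=
      over_of_reg w w0 t ht0 ht (fun f hf => h1.1 ⟨f, hf⟩) h1.2
    refine ⟨_, h2, ?_, ?_⟩
    · rw [← relf_eq h2]
      rfl
    · exact Nat.mul_pos h2.1 (hpos w hw)

theorem deg_eq_mul {w : Place k K'} {w0 : Place k K} {e : ℕ} (h : Over w w0 e) :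
    w.deg = w0.deg * @finrank w0.RF w.RF _ _ h.resMap.toRingHom.toAlgebra.toModule := by
  letI : Algebra w0.RF w.RF := h.resMap.toRingHom.toAlgebra
  haveI : IsScalarTower k w0.RF w.RF := IsScalarTower.of_algebraMap_eq (fun c => (h.resMap.commutes c).symm)
  have := Module.finrank_mul_finrank k w0.RF w.RF
  unfold Place.deg
  exact this.symm

/-- The fibre formula: the sum of `e * deg` over the places above `w0`. -/
theorem fibre [Algebra.IsSeparable K K'] [FiniteDimensional K K'] (w0 : Place k K) :
    ∃ (S : Finset (Place k K')) (E : Place k K' → ℕ),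
      (∀ w e, Over w w0 e → w ∈ S) ∧ (∀ w ∈ S, Over w w0 (E w) ∧ w0.deg ≤ w.deg) ∧
      ∑ w ∈ S, E w * w.deg = finrank K K' * w0.deg := by
  classical
  obtain ⟨S, T, h1, h2, h3⟩ := exists_places_over_sep (K' := K') w0
  choose! E hE hT using h2
  refine ⟨S, E, h1, fun w hw => ⟨hE w hw, ?_⟩, ?_⟩
  · rw [deg_eq_mul (hE w hw)]
    apply Nat.le_mul_of_pos_right
    have h4 := (hT w hw).2
    rw [(hT w hw).1] at h4
    exact Nat.pos_of_mul_pos_left h4
  · rw [← h3, Finset.sum_mul]
    refine Finset.sum_congr rfl fun w hw => ?_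
    rw [(hT w hw).1, deg_eq_mul (hE w hw)]
    ring

end

end Pool.Agent.W132.AG
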