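import Pool.Agent.W132.AG.Weak

/-! Rational places in extensions `E = F(y)` with `y ^ q + y ∈ F`. -/

set_option autoImplicit false
set_option linter.all false
set_option linter.overlappingInstances false

open Module FF Pool.Agent.H525R3.FFp Polynomial

namespace Pool.Agent.W132.AG

section
variable {k F E : Type*} [Field k] [Field F] [Field E] [Algebra k F] [Algebra k E] [Algebra F E]
  [IsScalarTower k F E] [FiniteDimensional F E] [Algebra.IsSeparable F E] [Fintype k] [CharP k 2]
  [IsFF k E] [IsFF k F]

theorem reg_pow {k F : Type*} [Field k] [Field F] [Algebra k F] (w : Place k F) {g : F} (hg : w.Reg g)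
    (n : ℕ) : w.Reg (g ^ n) := by
  induction n with
  | zero => rw [pow_zero]; exact w.reg_one
  | succ n ih => rw [pow_succ]; exact w.reg_mul ih hg

theorem red_wp {k F : Type*} [Field k] [Field F] [Algebra k F] (w : Place k F) {g : F} (hg : w.Reg g)
    (e : ℕ) : w.red (wp e g) = wp e (w.red g) := by
  unfold wp
  rw [w.red_add (reg_pow w hg _) hg, w.red_pow hg]

/-- the value at a rational place -/
theorem exists_value {k F : Type*} [Field k] [Field F] [Algebra k F] (w : Place k F) (hd : w.deg = 1)
    (ρ : w.RF) : ∃ c : k, ρ = algebraMap k w.RF c := by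
  have h1 : finrank k w.RF = 1 := hd
  obtain ⟨c, hc⟩ := (finrank_eq_one_iff_of_nonzero' (1 : w.RF) one_ne_zero).1 h1 ρ
  exact ⟨c, by rw [← hc, Algebra.smul_def, mul_one]⟩

theorem rat_fib {e : ℕ} (hk : Fintype.card k = 2 ^ e * 2 ^ e) {y : E}
    (hy : IntermediateField.adjoin F {y} = ⊤) {f : F} (hf : wp e y = algebraMap F E f)
    (hfr : finrank F E = 2 ^ e) (w0 : Place k F) (hd : w0.deg = 1) (hreg : w0.Reg f) (β : k)
    (hc : w0.red f = algebraMap k w0.RF (wp e β)) :
    (fibS E w0).card = 2 ^ e ∧ ∀ w ∈ fibS E w0, w.deg = 1 := by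
  classical
  haveI : IsGalois F E := as_galois hk y hy hf
  have he := e_ne_zero hk
  have hsum := sum_fibS (E := E) w0
  rw [hd, mul_one, hfr] at hsum
  have hne : (fibS E w0).Nonempty := by
    by_contra hc
    rw [Finset.not_nonempty_iff_eq_empty] at hc
    rw [hc, Finset.sum_empty] at hsum
    have : 0 < 2 ^ e := by positivity
    omega
  obtain ⟨w, hw⟩ := hne
  have hund : und F w = w0 := mem_fibS.1 hw
  have hov : Over w w0 (eI F w) := by rw [← hund]; exact over_und w
  have hwy : w.Reg y := by
    apply reg_of_wp_reg he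
    rw [hf]
    exact hov.reg.2 hreg
  obtain ⟨β', hβ'⟩ : ∃ β' : k, w.red y = algebraMap k w.RF β' := by
    haveI : CharP w.RF 2 := charE (k := k)
    have h1 : wp e (w.red y + algebraMap k w.RF β) = 0 := by
      rw [wp_add, ← red_wp w hwy, hf, ← hov.resMap_red hreg, hc]
      have h2 : hov.resMap (algebraMap k w0.RF (wp e β)) = algebraMap k w.RF (wp e β) :=
        hov.resMap.commutes _
      rw [h2, map_wp]
      exact self_add _
    obtain ⟨b, -, hb⟩ := exists_const hk h1
    refine ⟨b + β, ?_⟩
    rw [map_add, ← hb, add_assoc, self_add, add_zero]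
  have hstab : ∀ σ : E ≃ₐ[F] E, w.comp (σ.restrictScalars k) = w → σ = 1 := by
    intro σ hσ
    obtain ⟨b, -, hb⟩ := as_aut hk y hf σ
    apply as_aut_ext hy
    rw [hb]
    have h1 : w.Reg (y - algebraMap k E β') := by
      rw [sub_eq_add_neg]; exact w.reg_add hwy (w.reg_neg (w.reg_const _))
    have h2 : w.red (y - algebraMap k E β') = 0 := by
      rw [w.red_sub hwy (w.reg_const _), hβ']
      exact sub_self _
    rw [w.red_eq_zero_iff h1] at h2
    have hcst : σ (algebraMap k E β') = algebraMap k E β' := by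
      rw [IsScalarTower.algebraMap_apply k F E, AlgEquiv.commutes]
    have h3 : σ (y - algebraMap k E β') = y + algebraMap k E b - algebraMap k E β' := by
      rw [map_sub, hb, hcst]
    have h4 : y + algebraMap k E b - algebraMap k E β' = 0 ∨
        0 < w.ord (y + algebraMap k E b - algebraMap k E β') := by
      rw [← h3]
      rcases h2 with h | h
      · left; rw [h, map_zero]
      · right
        have h5 : (w.comp (σ.restrictScalars k)).ord (y - algebraMap k E β') =
          w.ord (y - algebraMap k E β') := by rw [hσ]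
        change w.ord (σ (y - algebraMap k E β')) = _ at h5
        rwa [h5]
    have h6 : w.Reg (y + algebraMap k E b) := w.reg_add hwy (w.reg_const b)
    have h7 : w.Reg (y + algebraMap k E b - algebraMap k E β') := by
      rw [sub_eq_add_neg]; exact w.reg_add h6 (w.reg_neg (w.reg_const _))
    rw [← w.red_eq_zero_iff h7, w.red_sub h6 (w.reg_const _), w.red_add hwy (w.reg_const b), hβ'] at h4
    have h8 : algebraMap k w.RF b = 0 := by
      change algebraMap k w.RF β' + algebraMap k w.RF b - algebraMap k w.RF β' = 0 at h4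
      linear_combination h4
    have h9 : b = 0 := (map_eq_zero _).1 h8
    rw [h9, map_zero, add_zero]
    rfl
  have hcard : 2 ^ e ≤ (fibS E w0).card := by
    rw [← hfr, ← IsGalois.card_aut_eq_finrank, Nat.card_eq_fintype_card, ← Finset.card_univ]
    apply Finset.card_le_card_of_injOn (fun σ : E ≃ₐ[F] E => w.comp (σ.restrictScalars k))
    · intro σ _
      have h1 := und_eq (over_comp w σ)
      rw [hund] at h1
      exact mem_fibS.2 h1
    · intro σ _ τ _ h
      have h1 : σ * τ⁻¹ = 1 := by
        apply hstab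
        ext z
        have h2 : (w.comp (σ.restrictScalars k)).ord (τ⁻¹ z) = (w.comp (τ.restrictScalars k)).ord (τ⁻¹ z) :=
          congrArg (fun v : Place k E => v.ord (τ⁻¹ z)) h
        change w.ord (σ (τ⁻¹ z)) = w.ord (τ (τ⁻¹ z)) at h2
        change w.ord (σ (τ⁻¹ z)) = w.ord z
        rw [h2]
        congr 1
        exact AlgEquiv.apply_symm_apply τ z
      exact mul_inv_eq_one.1 h1
  have hge : ∀ v ∈ fibS E w0, 1 ≤ eI F v * v.deg := by
    intro v _
    exact Nat.mul_pos (over_und (F := F) v).1 (deg_pos v)
  have hle : (fibS E w0).card ≤ 2 ^ e := by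
    rw [← hsum, Finset.card_eq_sum_ones]
    exact Finset.sum_le_sum hge
  have hceq : (fibS E w0).card = 2 ^ e := le_antisymm hle hcard
  refine ⟨hceq, ?_⟩
  have hall : ∀ v ∈ fibS E w0, 1 = eI F v * v.deg := by
    rw [← Finset.sum_eq_sum_iff_of_le hge, hsum, ← Finset.card_eq_sum_ones, hceq]
  intro v hv
  exact Nat.eq_one_of_mul_eq_one_left (hall v hv).symm

end

end Pool.Agent.W132.AG
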