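import Pool.Agent.W132.AG.Base

/-! The Garcia-Stichtenoth tower in characteristic two. -/

set_option autoImplicit false
set_option linter.all false
set_option linter.overlappingInstances false

open Module FF Pool.Agent.H525R3.FFp Polynomial IntermediateField

namespace Pool.Agent.W132.AG

section
variable {k K : Type} [Field k] [Field K] [Algebra k K]

theorem gen_top {A : IntermediateField k K} {y : K} (hyA : y ∈ A)
    (hA : ∀ C : IntermediateField k K, y ∈ C → A ≤ C) :
    IntermediateField.adjoin k {(⟨y, hyA⟩ : A)} = ⊤ := by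
  rw [eq_top_iff]
  intro b _
  let C : IntermediateField k K := (IntermediateField.adjoin k {(⟨y, hyA⟩ : A)}).map A.val
  have h2 : y ∈ C := ⟨⟨y, hyA⟩, IntermediateField.mem_adjoin_simple_self k _, rfl⟩
  obtain ⟨t, ht, hb⟩ := hA C h2 b.2
  have : t = b := Subtype.ext hb
  rw [← this]
  exact ht

theorem trans_sub {A : IntermediateField k K} {y : K} (hyA : y ∈ A) (hy : Transcendental k y) :
    Transcendental k (⟨y, hyA⟩ : A) := by
  intro h
  exact hy (h.algebraMap (A := K))

theorem trans_inv {y : K} (hy : Transcendental k y) : Transcendental k y⁻¹ := by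
  intro h
  have := h.inv
  rw [inv_inv] at this
  exact hy this

variable (k) in
/-- the fields of the pyramid -/
noncomputable def FF' (x : ℕ → K) (i j : ℕ) : IntermediateField k K :=
  IntermediateField.adjoin k (x '' Set.Icc i j)

theorem mem_FF' (x : ℕ → K) {i j n : ℕ} (h1 : i ≤ n) (h2 : n ≤ j) : x n ∈ FF' k x i j :=
  IntermediateField.subset_adjoin _ _ ⟨n, ⟨h1, h2⟩, rfl⟩

theorem FF'_le {x : ℕ → K} {i j : ℕ} {C : IntermediateField k K} (h : ∀ n, i ≤ n → n ≤ j → x n ∈ C) :
    FF' k x i j ≤ C := by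
  unfold FF'
  rw [IntermediateField.adjoin_le_iff]
  rintro _ ⟨n, ⟨h1, h2⟩, rfl⟩
  exact h n h1 h2

theorem wp_mem {A : IntermediateField k K} {y : K} (h : y ∈ A) (e : ℕ) : wp e y ∈ A := by
  unfold wp
  exact add_mem (pow_mem h _) h

end

section
variable {k K : Type} [Field k] [Field K] [Algebra k K] [Fintype k] [CharP k 2]

theorem pyramid {e : ℕ} (hk : Fintype.card k = 2 ^ e * 2 ^ e) (x : ℕ → K)
    (hx : ∀ n, Transcendental k (x n)) (hrel : ∀ n, wp e (x (n + 1)) * wp e (x n)⁻¹ = 1) (d : ℕ) :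
    ∀ i, IsFF k (FF' k x i (i + d)) ∧ WeakK e (FF' k x i (i + d)) (wp e (x (i + d))⁻¹)⁻¹ ∧
      WeakK e (FF' k x i (i + d)) (wp e (x i))⁻¹ := by
  have hR : ∀ n, wp e (x (n + 1)) = (wp e (x n)⁻¹)⁻¹ := fun n => eq_inv_of_mul_eq_one_left (hrel n)
  have hL : ∀ n, wp e (x n)⁻¹ = (wp e (x (n + 1)))⁻¹ := fun n => eq_inv_of_mul_eq_one_right (hrel n)
  induction d with
  | zero =>
    intro i
    rw [Nat.add_zero]
    have hm : x i ∈ FF' k x i i := mem_FF' x le_rfl le_rfl
    have hgen : ∀ C : IntermediateField k K, x i ∈ C → FF' k x i i ≤ C := by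
      intro C hC
      apply FF'_le
      intro n h1 h2
      rw [show n = i by omega]
      exact hC
    have h1 := gen_top hm hgen
    have ht := trans_sub hm (hx i)
    haveI := isFF_base ht h1
    refine ⟨this, ?_, ?_⟩
    · intro hf w
      have h2 := weak_base hk (trans_inv ht) (gen_inv h1) w
      have h3 : (⟨(wp e (x i)⁻¹)⁻¹, hf⟩ : FF' k x i i) = (wp e (⟨x i, hm⟩ : FF' k x i i)⁻¹)⁻¹ :=
        Subtype.ext rfl
      rw [h3]
      exact h2
    · intro hf w
      have h2 := weak_base hk ht h1 w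
      have h3 : (⟨(wp e (x i))⁻¹, hf⟩ : FF' k x i i) = (wp e (⟨x i, hm⟩ : FF' k x i i))⁻¹ :=
        Subtype.ext rfl
      rw [h3]
      exact h2
  | succ d ih =>
    intro i
    -- adjoining `x i` to the left
    obtain ⟨a1, a2, a3⟩ := ih (i + 1)
    obtain ⟨b1, b2, b3⟩ := ih i
    have e1 : i + 1 + d = i + (d + 1) := by omega
    rw [e1] at a1 a2 a3
    have hle1 : FF' k x (i + 1) (i + (d + 1)) ≤ FF' k x i (i + (d + 1)) :=
      FF'_le fun n h1 h2 => mem_FF' x (by omega) h2
    have s1 := step_weak hk hle1 (y := (x i)⁻¹) (f1 := (wp e (x (i + 1)))⁻¹)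
      (inv_mem (mem_FF' x le_rfl (by omega)))
      (by
        intro C hC1 hC2
        apply FF'_le
        intro n h1 h2
        rcases Nat.eq_or_lt_of_le h1 with h | h
        · rw [← h]
          have := inv_mem hC2
          rwa [inv_inv] at this
        · exact hC1 (mem_FF' x (by omega) h2))
      (inv_mem (wp_mem (mem_FF' x le_rfl (by omega)) e)) (hL i) a1
      (f2 := (wp e (x (i + (d + 1)))⁻¹)⁻¹)
      (inv_mem (wp_mem (inv_mem (mem_FF' x (by omega) le_rfl)) e)) a3 a2
    have hle2 : FF' k x i (i + d) ≤ FF' k x i (i + (d + 1)) :=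
      FF'_le fun n h1 h2 => mem_FF' x h1 (by omega)
    have s2 := step_weak hk hle2 (y := x (i + (d + 1))) (f1 := (wp e (x (i + d))⁻¹)⁻¹)
      (mem_FF' x (by omega) le_rfl)
      (by
        intro C hC1 hC2
        apply FF'_le
        intro n h1 h2
        rcases Nat.eq_or_lt_of_le h2 with h | h
        · rw [h]; exact hC2
        · exact hC1 (mem_FF' x h1 (by omega)))
      (inv_mem (wp_mem (inv_mem (mem_FF' x (by omega) le_rfl)) e)) (hR (i + d)) b1
      (f2 := (wp e (x i))⁻¹)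
      (inv_mem (wp_mem (mem_FF' x le_rfl (by omega)) e)) b2 b3
    exact ⟨s1.1, s1.2, s2.2⟩

theorem wp_inv_mul {F : Type*} [Field F] {e : ℕ} {a : F} (ha : a ≠ 0) :
    wp e a⁻¹ * a ^ (2 ^ e + 1) = wp e a := by
  unfold wp
  rw [inv_pow, pow_succ]
  field_simp
  ring

/-- if `a` and `wp a` have order `0` -/
theorem ord_zero_of {F : Type*} [Field F] [Algebra k F] {e : ℕ} (he : e ≠ 0) (w : Place k F) {b : F}
    (hb0 : b ≠ 0) (h : w.ord (wp e b) = 0) : w.ord b = 0 := by
  rcases lt_trichotomy (w.ord b) 0 with h1 | h1 | h1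
  · have := ord_wp_of_neg he w h1
    have h2 : (0 : ℤ) < 2 ^ e := by positivity
    nlinarith
  · exact h1
  · have h9 : w.ord (b ^ 2 ^ e) = 2 ^ e * w.ord b := by
      rw [w.ord_pow]; push_cast; ring
    have h10 : (2 : ℤ) ≤ 2 ^ e := by
      have : 2 ^ 1 ≤ 2 ^ e := Nat.pow_le_pow_right (by norm_num) (by omega)
      exact_mod_cast this
    have h11 := w.ord_add_eq hb0 (pow_ne_zero (2 ^ e) hb0) (by rw [h9]; nlinarith)
    unfold wp at h
    rw [add_comm, h11.2] at h
    omega

theorem outside {e : ℕ} (hk : Fintype.card k = 2 ^ e * 2 ^ e) (x : ℕ → K)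
    (hx : ∀ n, Transcendental k (x n)) (hrel : ∀ n, wp e (x (n + 1)) * wp e (x n)⁻¹ = 1) {m : ℕ}
    (w : Place k (FF' k x 0 m)) (hw : ¬ Lam e (⟨x 0, mem_FF' x le_rfl (Nat.zero_le _)⟩ : FF' k x 0 m) w)
    (n : ℕ) (hn : n ≤ m) :
    w.ord (⟨x n, mem_FF' x (Nat.zero_le _) hn⟩ : FF' k x 0 m) = 0 ∧
      w.ord (wp e (⟨x n, mem_FF' x (Nat.zero_le _) hn⟩ : FF' k x 0 m)) = 0 := by
  have he := e_ne_zero hk
  induction n with
  | zero =>
    have ht := trans_sub (mem_FF' (k := k) x le_rfl (Nat.zero_le m)) (hx 0)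
    have h0 : (⟨x 0, mem_FF' x le_rfl (Nat.zero_le m)⟩ : FF' k x 0 m) ≠ 0 := by
      intro h; rw [h] at ht; exact ht isAlgebraic_zero
    unfold Lam at hw
    push Not at hw
    have h1 : w.ord (wp e (⟨x 0, mem_FF' x le_rfl (Nat.zero_le m)⟩ : FF' k x 0 m)) = 0 := by
      apply le_antisymm hw.2
      have h2 : w.Reg (⟨x 0, mem_FF' x le_rfl (Nat.zero_le m)⟩ : FF' k x 0 m) := Or.inr hw.1
      have h3 : w.Reg (wp e (⟨x 0, mem_FF' x le_rfl (Nat.zero_le m)⟩ : FF' k x 0 m)) := by
        unfold wp; exact w.reg_add (reg_pow w h2 _) h2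
      rcases h3 with h3 | h3
      · rw [h3, w.ord_zero]
      · exact h3
    exact ⟨ord_zero_of he w h0 h1, h1⟩
  | succ n ih =>
    obtain ⟨h1, h2⟩ := ih (by omega)
    set a : FF' k x 0 m := ⟨x n, mem_FF' x (Nat.zero_le _) (by omega)⟩ with ha
    set b : FF' k x 0 m := ⟨x (n + 1), mem_FF' x (Nat.zero_le _) hn⟩ with hb
    have hta : Transcendental k a := trans_sub _ (hx n)
    have htb : Transcendental k b := trans_sub _ (hx (n + 1))
    have ha0 : a ≠ 0 := by
      intro h; rw [h] at hta; exact hta isAlgebraic_zero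
    have hb0 : b ≠ 0 := by
      intro h; rw [h] at htb; exact htb isAlgebraic_zero
    have h3 : wp e b * wp e a⁻¹ = 1 := Subtype.ext (hrel n)
    have h4 : wp e b * wp e a = a ^ (2 ^ e + 1) := by
      rw [← wp_inv_mul ha0, ← mul_assoc, h3, one_mul]
    have h5 := congrArg w.ord h4
    rw [w.ord_mul (wp_ne_zero hk htb) (wp_ne_zero hk hta), w.ord_pow, h1, h2] at h5
    have h6 : w.ord (wp e b) = 0 := by simpa using h5
    exact ⟨ord_zero_of he w hb0 h6, h6⟩

theorem gamma_mem {e : ℕ} (hk : Fintype.card k = 2 ^ e * 2 ^ e) {α γ : k} (hα : wp e α ≠ 0)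
    (h : γ * wp e α = α ^ (2 ^ e + 1)) : wp e γ = 0 := by
  have h1 : (wp e α) ^ 2 ^ e = wp e α := by
    have h2 := wp_wp hk α
    have h3 : (wp e α) ^ 2 ^ e + wp e α = 0 := h2
    have h4 := self_add (wp e α)
    linear_combination h3 - h4
  have h2 : (α ^ (2 ^ e + 1)) ^ 2 ^ e = α ^ (2 ^ e + 1) := by
    rw [← pow_mul, add_mul, one_mul, pow_add, ← hk, FiniteField.pow_card, pow_succ, mul_comm]
  have h3 : γ ^ 2 ^ e * wp e α = γ * wp e α := by
    rw [← h1, ← mul_pow, h1, h, h2]
  have h4 := mul_right_cancel₀ hα h3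
  unfold wp
  rw [h4]
  exact self_add _

theorem main_step {e : ℕ} (hk : Fintype.card k = 2 ^ e * 2 ^ e) (x : ℕ → K)
    (hx : ∀ n, Transcendental k (x n)) (hrel : ∀ n, wp e (x (n + 1)) * wp e (x n)⁻¹ = 1) (m : ℕ) :
    ∃ _ : IsFF k (FF' k x 0 m),
      (∃ w : Place k (FF' k x 0 m), w.ord (⟨x m, mem_FF' x (Nat.zero_le _) le_rfl⟩ : FF' k x 0 m) = -1) ∧
      (∃ S : Finset (Place k (FF' k x 0 m)),
        (∀ w, w ∈ S ↔ Lam e (⟨x 0, mem_FF' x le_rfl (Nat.zero_le _)⟩ : FF' k x 0 m) w) ∧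
        ∀ D : Place k (FF' k x 0 m) →₀ ℤ, phi D + ∑ w ∈ S, (w.deg : ℤ) ≤ 2 ^ e * (2 ^ e) ^ m) ∧
      ∃ S : Finset (Place k (FF' k x 0 m)), S.card = (2 ^ e * 2 ^ e - 2 ^ e) * (2 ^ e) ^ m ∧
        ∀ w ∈ S, w.deg = 1 ∧ ¬ Lam e (⟨x 0, mem_FF' x le_rfl (Nat.zero_le _)⟩ : FF' k x 0 m) w := by
  classical
  have he := e_ne_zero hk
  have hR : ∀ n, wp e (x (n + 1)) = (wp e (x n)⁻¹)⁻¹ := fun n => eq_inv_of_mul_eq_one_left (hrel n)
  induction m with
  | zero =>
    have hm : x 0 ∈ FF' k x 0 0 := mem_FF' x le_rfl le_rfl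
    have hgen : ∀ C : IntermediateField k K, x 0 ∈ C → FF' k x 0 0 ≤ C := by
      intro C hC
      apply FF'_le
      intro n h1 h2
      rw [show n = 0 by omega]
      exact hC
    have h1 := gen_top hm hgen
    have ht := trans_sub hm (hx 0)
    haveI := isFF_base ht h1
    refine ⟨this, ?_, ?_, ?_⟩
    · obtain ⟨w, hw⟩ := exists_pole_gen (k := k) h1
      exact ⟨w, (pole_gen h1 hw).1⟩
    · obtain ⟨S, hS, hS2⟩ := locus_base hk ht h1
      refine ⟨S, hS, fun D => ?_⟩
      have := phi_base ht h1 D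
      rw [pow_zero, mul_one]
      linarith
    · obtain ⟨S, hS, hS2⟩ := rat_base hk ht h1
      refine ⟨S, by rw [hS, pow_zero, mul_one], hS2⟩
  | succ m ih =>
    obtain ⟨i0, ⟨w0, hw0⟩, ⟨S, hS, hphi⟩, ⟨A, hA, hA2⟩⟩ := ih
    obtain ⟨-, hweak, -⟩ := pyramid hk x hx hrel m 0
    rw [Nat.zero_add] at hweak
    have hle : FF' k x 0 m ≤ FF' k x 0 (m + 1) := FF'_le fun n h1 h2 => mem_FF' x h1 (by omega)
    have hfm : (wp e (x m)⁻¹)⁻¹ ∈ FF' k x 0 m :=
      inv_mem (wp_mem (inv_mem (mem_FF' x (Nat.zero_le _) le_rfl)) e)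
    letI : Algebra (FF' k x 0 m) (FF' k x 0 (m + 1)) := (IntermediateField.inclusion hle).toRingHom.toAlgebra
    obtain ⟨i1, i2, i3⟩ := ext_data hle (y := x (m + 1)) (f := (wp e (x m)⁻¹)⁻¹)
      (mem_FF' x (Nat.zero_le _) le_rfl)
      (by
        intro C hC1 hC2
        apply FF'_le
        intro n h1 h2
        rcases Nat.eq_or_lt_of_le h2 with h | h
        · rw [h]; exact hC2
        · exact hC1 (mem_FF' x h1 (by omega)))
      hfm (hR m)
    set y : FF' k x 0 (m + 1) := ⟨x (m + 1), mem_FF' x (Nat.zero_le _) le_rfl⟩ with hy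
    set f : FF' k x 0 m := ⟨(wp e (x m)⁻¹)⁻¹, hfm⟩ with hf
    haveI : FiniteDimensional (FF' k x 0 m) (FF' k x 0 (m + 1)) := as_finite hk _ i2 i3
    haveI : IsGalois (FF' k x 0 m) (FF' k x 0 (m + 1)) := as_galois hk _ i2 i3
    haveI : Algebra.IsSeparable (FF' k x 0 m) (FF' k x 0 (m + 1)) := inferInstance
    haveI : IsFF k (FF' k x 0 (m + 1)) := isFF_of_ext (F := FF' k x 0 m)
    have hweak' : ∀ w : Place k (FF' k x 0 m), Weak e f w := fun w => hweak hfm w
    -- the element `x m`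
    set a : FF' k x 0 m := ⟨x m, mem_FF' x (Nat.zero_le _) le_rfl⟩ with ha
    have hta : Transcendental k a := trans_sub _ (hx m)
    have ha0 : a ≠ 0 := by
      intro h; rw [h] at hta; exact hta isAlgebraic_zero
    have hfa : f = (wp e a⁻¹)⁻¹ := Subtype.ext rfl
    have hwai : wp e a⁻¹ ≠ 0 := wp_ne_zero hk (trans_inv hta)
    have hwa : wp e a ≠ 0 := wp_ne_zero hk hta
    have hf0 : f ≠ 0 := by rw [hfa]; exact inv_ne_zero hwai
    have hfmul : f * wp e a = a ^ (2 ^ e + 1) := by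
      rw [hfa, ← wp_inv_mul ha0, ← mul_assoc, inv_mul_cancel₀ hwai, one_mul]
    -- the pole
    have hordf : w0.ord f = -1 := by
      have h1 := congrArg w0.ord hfmul
      rw [w0.ord_mul hf0 hwa, ord_wp_of_neg he w0 (by rw [hw0]; norm_num), w0.ord_pow, hw0] at h1
      push_cast at h1
      linarith
    have hfib : (fibS (FF' k x 0 (m + 1)) w0).Nonempty := by
      by_contra hc
      rw [Finset.not_nonempty_iff_eq_empty] at hc
      have h3 := sum_fibS (E := FF' k x 0 (m + 1)) w0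
      rw [hc, Finset.sum_empty] at h3
      have h4 : 0 < w0.deg := deg_pos w0
      have h5 : 0 < finrank (FF' k x 0 m) (FF' k x 0 (m + 1)) := finrank_pos
      have := Nat.mul_pos h5 h4
      omega
    obtain ⟨w1, hw1⟩ := hfib
    have hw1' := mem_fibS.1 hw1
    obtain ⟨-, hr2, hfr⟩ := ram hk i2 i3 w1 (by rw [hw1']; exact hordf)
    -- the locus
    have hmap : algebraMap (FF' k x 0 m) (FF' k x 0 (m + 1)) ⟨x 0, mem_FF' x le_rfl (Nat.zero_le _)⟩ =
      ⟨x 0, mem_FF' x le_rfl (Nat.zero_le _)⟩ := rfl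
    have hLam : ∀ w : Place k (FF' k x 0 (m + 1)),
        Lam e (⟨x 0, mem_FF' x le_rfl (Nat.zero_le _)⟩ : FF' k x 0 (m + 1)) w ↔
        Lam e (⟨x 0, mem_FF' x le_rfl (Nat.zero_le _)⟩ : FF' k x 0 m) (und (FF' k x 0 m) w) := by
      intro w
      unfold Lam
      rw [← hmap, ← map_wp, (over_und (F := FF' k x 0 m) w).2, (over_und (F := FF' k x 0 m) w).2]
      have h1 : (0 : ℤ) < eI (FF' k x 0 m) w := by exact_mod_cast (over_und (F := FF' k x 0 m) w).1
      rw [mul_neg_iff, mul_pos_iff]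
      constructor
      · rintro ((h | h) | (h | h))
        · exact Or.inl h.2
        · omega
        · exact Or.inr h.2
        · omega
      · rintro (h | h)
        · exact Or.inl (Or.inl ⟨h1, h⟩)
        · exact Or.inr (Or.inl ⟨h1, h⟩)
    have hout : ∀ w : Place k (FF' k x 0 m),
        ¬ Lam e (⟨x 0, mem_FF' x le_rfl (Nat.zero_le _)⟩ : FF' k x 0 m) w → w.ord a = 0 ∧ w.ord (wp e a) = 0
          ∧ w.ord f = 0 := by
      intro w hw
      obtain ⟨h1, h2⟩ := outside hk x hx hrel w hw m le_rfl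
      refine ⟨h1, h2, ?_⟩
      have h3 := congrArg w.ord hfmul
      rw [w.ord_mul hf0 hwa, w.ord_pow] at h3
      have h1' : w.ord a = 0 := h1
      have h2' : w.ord (wp e a) = 0 := h2
      rw [h1', h2'] at h3
      simpa using h3
    refine ⟨this, ⟨w1, hr2⟩, ?_, ?_⟩
    · refine ⟨S.biUnion fun w => fibS (FF' k x 0 (m + 1)) w, ?_, ?_⟩
      · intro w
        rw [hLam, ← hS, Finset.mem_biUnion]
        constructor
        · rintro ⟨v, hv, hw⟩
          rwa [mem_fibS.1 hw]
        · intro h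
          exact ⟨_, h, mem_fibS.2 rfl⟩
      · intro D
        have := tower_step hk i2 i3 hfr hweak' S
          (S.biUnion fun w => fibS (FF' k x 0 (m + 1)) w)
          (by
            intro w
            rw [Finset.mem_biUnion]
            constructor
            · rintro ⟨v, hv, hw⟩
              rwa [mem_fibS.1 hw]
            · intro h
              exact ⟨_, h, mem_fibS.2 rfl⟩)
          (by
            intro v hv
            rw [hS]
            by_contra hc
            apply hv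
            refine ⟨0, ?_⟩
            haveI : CharP (FF' k x 0 m) 2 := charE (k := k)
            rw [wp_zero, add_zero]
            right
            rw [(hout v hc).2.2]
            simp)
          (c := 2 ^ e * (2 ^ e) ^ m) hphi D
        rw [pow_succ]
        linarith
    · have hratf : ∀ v ∈ A, (fibS (FF' k x 0 (m + 1)) v).card = 2 ^ e ∧
          ∀ w ∈ fibS (FF' k x 0 (m + 1)) v, w.deg = 1 := by
        intro v hv
        obtain ⟨hd, hL⟩ := hA2 v hv
        obtain ⟨o1, o2, o3⟩ := hout v hL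
        have rega : v.Reg a := Or.inr o1.ge
        have regf : v.Reg f := Or.inr o3.ge
        have regw : v.Reg (wp e a) := Or.inr o2.ge
        obtain ⟨α, hα⟩ := exists_value v hd (v.red a)
        obtain ⟨γ, hγ⟩ := exists_value v hd (v.red f)
        have hwα : wp e α ≠ 0 := by
          intro h
          have h1 := v.red_ne_zero hwa o2
          rw [red_wp v rega, hα, ← map_wp, h, map_zero] at h1
          exact h1 rfl
        have hrel' : γ * wp e α = α ^ (2 ^ e + 1) := by
          have h1 := congrArg v.red hfmul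
          rw [v.red_mul regf regw, v.red_pow rega, red_wp v rega, hα, hγ, ← map_wp, ← map_mul, ← map_pow] at h1
          exact (algebraMap k v.RF).injective h1
        obtain ⟨β, hβ⟩ := wp_surj hk (gamma_mem hk hwα hrel')
        exact rat_fib hk i2 i3 hfr v hd regf β (by rw [hγ, hβ])
      refine ⟨A.biUnion fun w => fibS (FF' k x 0 (m + 1)) w, ?_, ?_⟩
      · have hcard : ∀ v ∈ A, (fibS (FF' k x 0 (m + 1)) v).card = 2 ^ e := fun v hv => (hratf v hv).1
        rw [Finset.card_biUnion, Finset.sum_congr rfl hcard, Finset.sum_const, hA, smul_eq_mul, pow_succ]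
        · ring
        · intro v _ v' _ hvv
          rw [Function.onFun, Finset.disjoint_left]
          intro w hwa hwb
          exact hvv ((mem_fibS.1 hwa).symm.trans (mem_fibS.1 hwb))
      · intro w hw
        rw [Finset.mem_biUnion] at hw
        obtain ⟨v, hv, hwv⟩ := hw
        refine ⟨(hratf v hv).2 w hwv, ?_⟩
        rw [hLam, mem_fibS.1 hwv]
        exact (hA2 v hv).2

end

section
variable (k : Type) [Field k] [Fintype k] [CharP k 2]

/-- the tower exists -/
theorem exists_x {e : ℕ} (hk : Fintype.card k = 2 ^ e * 2 ^ e) :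
    ∃ (K : Type) (_ : Field K) (_ : Algebra k K) (x : ℕ → K), (∀ n, Transcendental k (x n)) ∧
      ∀ n, wp e (x (n + 1)) * wp e (x n)⁻¹ = 1 := by
  classical
  have he := e_ne_zero hk
  let K := AlgebraicClosure (RatFunc k)
  have hx0 : Transcendental k (algebraMap (RatFunc k) K RatFunc.X) := by
    intro h
    have h1 : IsAlgebraic k (RatFunc.X : RatFunc k) :=
      (isAlgebraic_algebraMap_iff (algebraMap (RatFunc k) K).injective).1 h
    exact RatFunc.transcendental_X h1
  have hstep : ∀ a : K, Transcendental k a → ∃ b : K, Transcendental k b ∧ wp e b * wp e a⁻¹ = 1 := by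
    intro a ha
    have hwa : wp e a⁻¹ ≠ 0 := wp_ne_zero hk (trans_inv ha)
    have hdeg : (X ^ (2 ^ e) + X + C (wp e a⁻¹)⁻¹ : K[X]).degree ≠ 0 := by
      have h1 : (X ^ (2 ^ e) + X + C (wp e a⁻¹)⁻¹ : K[X]).natDegree = 2 ^ e := by
        rw [add_assoc, natDegree_add_eq_left_of_natDegree_lt]
        · simp
        · rw [natDegree_X_pow, natDegree_X_add_C]
          exact Nat.one_lt_two_pow he
      intro h
      have h2 : (X ^ (2 ^ e) + X + C (wp e a⁻¹)⁻¹ : K[X]).natDegree = 0 := natDegree_eq_of_degree_eq_some h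
      rw [h1] at h2
      have : 0 < 2 ^ e := by positivity
      omega
    obtain ⟨b, hb⟩ := IsAlgClosed.exists_root _ hdeg
    rw [IsRoot.def] at hb
    simp only [eval_add, eval_pow, eval_X, eval_C] at hb
    haveI : CharP K 2 := charE (k := k)
    have hwb : wp e b = (wp e a⁻¹)⁻¹ := by
      unfold wp at hb ⊢
      have h4 := self_add (((a⁻¹ ^ 2 ^ e + a⁻¹)⁻¹ : K))
      linear_combination hb - h4
    refine ⟨b, ?_, by rw [hwb, inv_mul_cancel₀ hwa]⟩
    intro hbalg
    have h1 : IsAlgebraic k (wp e b) := by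
      unfold wp
      exact (hbalg.pow _).add hbalg
    rw [hwb] at h1
    have h2 := h1.inv
    rw [inv_inv] at h2
    -- `a⁻¹` is algebraic over `k`
    have h3 : IsAlgebraic k a⁻¹ := by
      have h4 : IsAlgebraic k (aeval a⁻¹ (X ^ (2 ^ e) + X : k[X])) := by
        simpa [wp] using h2
      exact IsAlgebraic.of_aeval _ (by rw [wp_poly_natDegree e he]; positivity)
        (by rw [(wp_poly_monic e he).leadingCoeff]; exact one_mem _) h4
    exact (trans_inv ha) h3
  choose! g hg1 hg2 using hstep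
  let x : ℕ → K := fun n => g^[n] (algebraMap (RatFunc k) K RatFunc.X)
  have hx : ∀ n, Transcendental k (x n) := by
    intro n
    induction n with
    | zero => exact hx0
    | succ n ih =>
      have : x (n + 1) = g (x n) := Function.iterate_succ_apply' g n _
      rw [this]
      exact hg1 _ ih
  refine ⟨K, inferInstance, inferInstance, x, hx, fun n => ?_⟩
  have : x (n + 1) = g (x n) := Function.iterate_succ_apply' g n _
  rw [this]
  exact hg2 _ (hx n)

/-- The tower of Garcia and Stichtenoth, in characteristic two. -/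
theorem tower {e : ℕ} (hk : Fintype.card k = 2 ^ e * 2 ^ e) (m : ℕ) :
    ∃ (F : Type) (_ : Field F) (_ : Algebra k F) (_ : IsFF k F),
      (∀ D : Place k F →₀ ℤ, phi D ≤ 2 ^ e * (2 ^ e) ^ m) ∧
      ∃ S : Finset (Place k F), S.card = (2 ^ e * 2 ^ e - 2 ^ e) * (2 ^ e) ^ m ∧ ∀ w ∈ S, w.deg = 1 := by
  obtain ⟨K, i1, i2, x, hx, hrel⟩ := exists_x k hk
  obtain ⟨i0, -, ⟨S, -, hS⟩, ⟨A, hA, hA2⟩⟩ := main_step hk x hx hrel m
  refine ⟨_, _, _, i0, fun D => ?_, A, hA, fun w hw => (hA2 w hw).1⟩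
  have h1 := hS D
  have h2 : 0 ≤ ∑ w ∈ S, (w.deg : ℤ) := Finset.sum_nonneg fun w _ => by positivity
  linarith

end

end Pool.Agent.W132.AG
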