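import Pool.Agent.W132.AG.AS

/-! Ramification in extensions `E = F(y)` with `y ^ q + y ∈ F`. -/

set_option autoImplicit false
set_option linter.all false
set_option linter.overlappingInstances false

open Module FF Pool.Agent.H525R3.FFp Polynomial

namespace Pool.Agent.W132.AG

section
variable {k F : Type*} [Field k] [Field F] [Algebra k F] [CharP k 2]

/-- order of `wp z` at a pole of `z` -/
theorem ord_wp_of_neg {e : ℕ} (he : e ≠ 0) (w : Place k F) {z : F} (hz : w.ord z < 0) :
    w.ord (wp e z) = 2 ^ e * w.ord z := by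
  have hz0 : z ≠ 0 := by
    rintro rfl
    rw [w.ord_zero] at hz; omega
  have h1 : w.ord (z ^ 2 ^ e) = 2 ^ e * w.ord z := by
    rw [w.ord_pow]; push_cast; ring
  have h2 : (2 : ℤ) ≤ 2 ^ e := by
    have : 2 ^ 1 ≤ 2 ^ e := Nat.pow_le_pow_right (by norm_num) (by omega)
    exact_mod_cast this
  have h3 := w.ord_add_eq (f := z ^ 2 ^ e) (g := z) (pow_ne_zero _ hz0) hz0 (by
    rw [h1]; nlinarith)
  unfold wp
  rw [h3.2, h1]

theorem ord_neg_of_wp {e : ℕ} (he : e ≠ 0) (w : Place k F) {z : F} (hz : w.ord (wp e z) < 0) :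
    w.ord z < 0 ∧ w.ord (wp e z) = 2 ^ e * w.ord z := by
  have h : w.ord z < 0 := by
    by_contra hc
    push Not at hc
    have h1 : w.Reg z := Or.inr hc
    have h2 : w.Reg (wp e z) := by
      unfold wp
      refine w.reg_add ?_ h1
      clear hz
      induction (2 ^ e) with
      | zero => rw [pow_zero]; exact w.reg_one
      | succ n ih => rw [pow_succ]; exact w.reg_mul ih h1
    rcases h2 with h2 | h2
    · rw [h2, w.ord_zero] at hz; omega
    · omega
  exact ⟨h, ord_wp_of_neg he w h⟩

theorem reg_of_wp_reg {e : ℕ} (he : e ≠ 0) (w : Place k F) {z : F} (hz : w.Reg (wp e z)) : w.Reg z := by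
  by_contra hc
  have h1 : w.ord z < 0 := by
    unfold Place.Reg at hc
    push Not at hc
    exact hc.2
  have h2 := ord_wp_of_neg he w h1
  have h3 : (0 : ℤ) < 2 ^ e := by positivity
  have h4 : w.ord (wp e z) < 0 := by rw [h2]; nlinarith
  rcases hz with hz | hz
  · rw [hz, w.ord_zero] at h4; omega
  · omega

end

section
variable {k F E : Type*} [Field k] [Field F] [Field E] [Algebra k F] [Algebra k E] [Algebra F E]
  [IsScalarTower k F E] [FiniteDimensional F E] [Algebra.IsSeparable F E] [Fintype k] [CharP k 2]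
  [IsFF k E] [IsFF k F]

theorem fib_bound {e : ℕ} (hk : Fintype.card k = 2 ^ e * 2 ^ e) {y : E}
    (hy : IntermediateField.adjoin F {y} = ⊤) {f : F} (hf : wp e y = algebraMap F E f)
    (w : Place k E) (n : ℕ) (hn : ∀ σ : E ≃ₐ[F] E, n ≤ (w.comp (σ.restrictScalars k)).deg)
    (H : ∀ s : Finset (E ≃ₐ[F] E), (∀ σ ∈ s, w.comp (σ.restrictScalars k) = w) →
      s.card * (und F w).deg ≤ n) : eI F w = 1 := by
  classical
  haveI : IsGalois F E := as_galois hk y hy hf
  set w0 := und F w with hw0
  let c : (E ≃ₐ[F] E) → Place k E := fun σ => w.comp (σ.restrictScalars k)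
  let I : Finset (Place k E) := Finset.univ.image c
  let Hs : Finset (E ≃ₐ[F] E) := Finset.univ.filter fun σ => c σ = w
  have hI : I ⊆ fibS E w0 := by
    intro w' hw'
    simp only [I, Finset.mem_image, Finset.mem_univ, true_and] at hw'
    obtain ⟨σ, rfl⟩ := hw'
    exact mem_fibS.2 (und_eq (over_comp w σ))
  have hcard : Fintype.card (E ≃ₐ[F] E) ≤ Hs.card * I.card := by
    rw [← Finset.card_univ]
    apply Finset.card_le_mul_card_image
    intro w' hw'
    rw [Finset.mem_image] at hw'
    obtain ⟨σ0, -, rfl⟩ := hw'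
    apply Finset.card_le_card_of_injOn (fun σ => σ * σ0⁻¹)
    · intro σ hσ
      simp only [Finset.coe_filter, Finset.mem_univ, true_and, Set.mem_setOf_eq] at hσ
      simp only [Hs, Finset.coe_filter, Finset.mem_univ, true_and, Set.mem_setOf_eq]
      ext z
      have h1 : (c σ).ord (σ0⁻¹ z) = (c σ0).ord (σ0⁻¹ z) := by rw [hσ]
      change w.ord (σ (σ0⁻¹ z)) = w.ord (σ0 (σ0⁻¹ z)) at h1
      change w.ord ((σ * σ0⁻¹) z) = w.ord z
      rw [AlgEquiv.mul_apply, h1]
      congr 1
      exact AlgEquiv.apply_symm_apply σ0 z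
    · intro σ _ τ _ h
      exact mul_right_cancel h
  have hsum := sum_fibS (E := E) w0
  have h1 : ∑ w' ∈ I, eI F w * n ≤ ∑ w' ∈ fibS E w0, eI F w' * w'.deg := by
    refine le_trans (Finset.sum_le_sum ?_) (Finset.sum_le_sum_of_subset hI)
    intro w' hw'
    simp only [I, Finset.mem_image, Finset.mem_univ, true_and] at hw'
    obtain ⟨σ, rfl⟩ := hw'
    have h2 := over_comp w σ
    rw [eI_eq h2]
    exact Nat.mul_le_mul_left _ (hn σ)
  rw [hsum, Finset.sum_const, smul_eq_mul, ← IsGalois.card_aut_eq_finrank, Nat.card_eq_fintype_card] at h1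
  have h3 := H Hs (fun σ hσ => by
    simp only [Hs, Finset.mem_filter, Finset.mem_univ, true_and] at hσ
    exact hσ)
  have hd : 0 < w0.deg := deg_pos w0
  have hIpos : 0 < I.card := Finset.card_pos.2 ⟨c 1, Finset.mem_image_of_mem _ (Finset.mem_univ _)⟩
  have hGpos : 0 < Fintype.card (E ≃ₐ[F] E) := Fintype.card_pos
  have he : 0 < eI F w := (over_und (F := F) w).1
  have hHpos : 0 < Hs.card := by
    rcases Nat.eq_zero_or_pos Hs.card with h | h
    · rw [h] at hcard; omega
    · exact h
  have h4 : I.card * (eI F w * (Hs.card * w0.deg)) ≤ Hs.card * I.card * w0.deg :=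
    calc I.card * (eI F w * (Hs.card * w0.deg)) ≤ I.card * (eI F w * n) :=
        Nat.mul_le_mul_left _ (Nat.mul_le_mul_left _ h3)
      _ ≤ _ := h1
      _ ≤ _ := Nat.mul_le_mul_right _ hcard
  have h5 : eI F w * (I.card * Hs.card * w0.deg) ≤ 1 * (I.card * Hs.card * w0.deg) := by
    calc _ = I.card * (eI F w * (Hs.card * w0.deg)) := by ring
      _ ≤ _ := h4
      _ = _ := by ring
  have h6 := Nat.le_of_mul_le_mul_right h5 (by positivity)
  omega

theorem unram {e : ℕ} (hk : Fintype.card k = 2 ^ e * 2 ^ e) {y : E}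
    (hy : IntermediateField.adjoin F {y} = ⊤) {f : F} (hf : wp e y = algebraMap F E f)
    (w : Place k E) (hreg : (und F w).Reg f) : eI F w = 1 := by
  classical
  haveI : IsGalois F E := as_galois hk y hy hf
  set w0 := und F w with hw0
  let Hs : Finset (E ≃ₐ[F] E) := Finset.univ.filter fun σ => w.comp (σ.restrictScalars k) = w
  choose b hb0 hb using fun σ : E ≃ₐ[F] E => as_aut hk y hf σ
  apply fib_bound hk hy hf w (Hs.card * w0.deg)
  · intro ρ
    set w' := w.comp (ρ.restrictScalars k) with hw'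
    have hund : und F w' = w0 := und_eq (over_comp w ρ)
    have hreg' : w'.Reg y := by
      apply reg_of_wp_reg (e_ne_zero hk)
      rw [hf]
      apply (over_und (F := F) w').reg.2
      rwa [hund]
    have := stab_card_mul_le (F := F) w' y hreg' (Hs.image b) (by
      intro c hc
      rw [Finset.mem_image] at hc
      obtain ⟨σ, hσ, rfl⟩ := hc
      refine ⟨σ, hb σ, fun z => ?_⟩
      change w.ord (ρ (σ z)) = w.ord (ρ z)
      have h1 : ρ (σ z) = σ (ρ z) := by
        rw [← AlgEquiv.mul_apply, ← AlgEquiv.mul_apply, as_comm hk hy hf]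
      rw [h1]
      simp only [Hs, Finset.mem_filter, Finset.mem_univ, true_and] at hσ
      have h2 : (w.comp (σ.restrictScalars k)).ord (ρ z) = w.ord (ρ z) := by rw [hσ]
      exact h2)
    rw [Finset.card_image_of_injective, hund] at this
    · exact this
    · intro σ τ h
      apply as_aut_ext hy
      rw [hb, hb, h]
  · intro s hs
    apply Nat.mul_le_mul_right
    apply Finset.card_le_card
    intro σ hσ
    simp only [Hs, Finset.mem_filter, Finset.mem_univ, true_and]
    exact hs σ hσ

/-- total ramification at simple poles -/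
theorem ram {e : ℕ} (hk : Fintype.card k = 2 ^ e * 2 ^ e) {y : E}
    (hy : IntermediateField.adjoin F {y} = ⊤) {f : F} (hf : wp e y = algebraMap F E f)
    (w : Place k E) (hord : (und F w).ord f = -1) :
    eI F w = 2 ^ e ∧ w.ord y = -1 ∧ finrank F E = 2 ^ e := by
  have he := e_ne_zero hk
  have hE := (over_und (F := F) w).1
  have h1 : w.ord (wp e y) = - (eI F w : ℤ) := by
    rw [hf, (over_und (F := F) w).2, hord]; ring
  have h2 := ord_neg_of_wp he w (z := y) (by rw [h1]; omega)
  have h3 := h2.2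
  rw [h1] at h3
  have h4 : (eI F w) ≤ 2 ^ e := by
    have h5 := sum_fibS (E := E) (und F w)
    have h6 : eI F w * w.deg ≤ finrank F E * (und F w).deg := by
      rw [← h5]
      exact Finset.single_le_sum (f := fun w => eI F w * w.deg) (fun _ _ => Nat.zero_le _) (mem_fibS.2 rfl)
    have h7 := deg_und_le (F := F) w
    have h8 : 0 < (und F w).deg := deg_pos _
    have h9 : eI F w * (und F w).deg ≤ finrank F E * (und F w).deg :=
      (Nat.mul_le_mul_left _ h7).trans h6
    exact (Nat.le_of_mul_le_mul_right h9 h8).trans (as_finrank_le hk y hy hf)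
  have h5 : (0 : ℤ) < 2 ^ e := by positivity
  have h6 : ((eI F w : ℕ) : ℤ) ≤ 2 ^ e := by exact_mod_cast h4
  have h7 : w.ord y = -1 := by nlinarith [h2.1]
  have h8 : ((eI F w : ℕ) : ℤ) = 2 ^ e := by rw [h7] at h3; linarith
  have h8' : eI F w = 2 ^ e := by exact_mod_cast h8
  refine ⟨h8', h7, ?_⟩
  apply le_antisymm (as_finrank_le hk y hy hf)
  rw [← h8']
  have h5 := sum_fibS (E := E) (und F w)
  have h6 : eI F w * w.deg ≤ finrank F E * (und F w).deg := by
    rw [← h5]
    exact Finset.single_le_sum (f := fun w => eI F w * w.deg) (fun _ _ => Nat.zero_le _) (mem_fibS.2 rfl)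
  have h7 := deg_und_le (F := F) w
  have h8 : 0 < (und F w).deg := deg_pos _
  exact Nat.le_of_mul_le_mul_right ((Nat.mul_le_mul_left _ h7).trans h6) h8

end

end Pool.Agent.W132.AG
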