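import Pool.Agent.W132.AG.Unram

/-! Weakly ramified functions, and the genus bound for one step of the tower. -/

set_option autoImplicit false
set_option linter.all false
set_option linter.overlappingInstances false

open Module FF Pool.Agent.H525R3.FFp Polynomial

namespace Pool.Agent.W132.AG

/-- After subtracting some `wp z`, the function `f` has at most a simple pole at `w`. -/
def Weak {k F : Type*} [Field k] [Field F] [Algebra k F] (e : ℕ) (f : F) (w : Place k F) : Prop :=
  ∃ z : F, Loc w 1 (f + wp e z)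

/-- After subtracting some `wp z`, the function `f` is regular at `w`. -/
def Good {k F : Type*} [Field k] [Field F] [Algebra k F] (e : ℕ) (f : F) (w : Place k F) : Prop :=
  ∃ z : F, Loc w 0 (f + wp e z)

theorem loc_zero_iff {k F : Type*} [Field k] [Field F] [Algebra k F] {w : Place k F} {f : F} :
    Loc w 0 f ↔ w.Reg f := by
  unfold Loc Place.Reg; simp

theorem Over.loc {k F E : Type*} [Field k] [Field F] [Field E] [Algebra k F] [Algebra k E] [Algebra F E]
    [IsScalarTower k F E] {w : Place k E} {w0 : Place k F} {e : ℕ} (h : Over w w0 e) {n : ℤ} {f : F}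
    (hf : Loc w0 n f) : Loc w (e * n) (algebraMap F E f) := by
  rcases hf with rfl | hf
  · left; rw [map_zero]
  · right
    rw [h.2]
    have : (0 : ℤ) ≤ e := by positivity
    nlinarith

section
variable {F E : Type*} [Field F] [Field E] [Algebra F E]

theorem adjoin_translate {y : E} (hy : IntermediateField.adjoin F {y} = ⊤) (z : F) :
    IntermediateField.adjoin F {y + algebraMap F E z} = ⊤ := by
  rw [eq_top_iff, ← hy, IntermediateField.adjoin_simple_le_iff]
  have h1 : y + algebraMap F E z ∈ IntermediateField.adjoin F {y + algebraMap F E z} :=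
    IntermediateField.mem_adjoin_simple_self F _
  have h2 := sub_mem h1 ((IntermediateField.adjoin F {y + algebraMap F E z}).algebraMap_mem z)
  rwa [add_sub_cancel_right] at h2

end

section
variable {k F : Type*} [Field k] [Field F] [Algebra k F] [Fintype k] [CharP k 2] [IsFF k F]

/-- approximate `q`-th roots -/
theorem exists_root {e : ℕ} (hk : Fintype.card k = 2 ^ e * 2 ^ e) (w : Place k F) {g : F} (hg : w.Reg g) :
    ∃ d : F, w.Reg d ∧ w.red (d ^ 2 ^ e) = w.red g := by
  classical
  have he := e_ne_zero hk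
  haveI : Finite w.RF := Module.finite_of_finite k
  haveI : Fintype w.RF := Fintype.ofFinite _
  have h1 : Fintype.card w.RF = Fintype.card k ^ w.deg := by
    have := Module.card_eq_pow_finrank (K := k) (V := w.RF)
    exact this
  have hd : 0 < w.deg := deg_pos w
  have h2 : Fintype.card k ^ w.deg = 2 ^ (2 * e * w.deg - e) * 2 ^ e := by
    rw [hk, ← pow_add, ← pow_mul, ← pow_add]
    congr 1
    have : e ≤ 2 * e * w.deg := by nlinarith
    have h3 : (e + e) * w.deg = 2 * e * w.deg := by ring
    omega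
  have hreg : w.Reg (g ^ 2 ^ (2 * e * w.deg - e)) := by
    generalize 2 ^ (2 * e * w.deg - e) = n
    induction n with
    | zero => rw [pow_zero]; exact w.reg_one
    | succ n ih => rw [pow_succ]; exact w.reg_mul ih hg
  refine ⟨g ^ 2 ^ (2 * e * w.deg - e), hreg, ?_⟩
  rw [← pow_mul, ← h2, ← h1, w.red_pow hg, FiniteField.pow_card]

end

section
variable {k F E : Type*} [Field k] [Field F] [Field E] [Algebra k F] [Algebra k E] [Algebra F E]
  [IsScalarTower k F E] [FiniteDimensional F E] [Algebra.IsSeparable F E] [Fintype k] [CharP k 2]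
  [IsFF k E] [IsFF k F]

theorem weak_up {e : ℕ} (hk : Fintype.card k = 2 ^ e * 2 ^ e) {y : E}
    (hy : IntermediateField.adjoin F {y} = ⊤) {f1 : F} (hf : wp e y = algebraMap F E f1)
    {f2 : F} (w : Place k E) (h1 : Weak e f1 (und F w)) (h2 : Weak e f2 (und F w)) :
    Weak e (algebraMap F E f2) w := by
  haveI : CharP E 2 := charE (k := k)
  haveI : CharP F 2 := charE (k := k)
  obtain ⟨z1, hz1⟩ := h1
  obtain ⟨z2, hz2⟩ := h2
  set w0 := und F w with hw0
  have hov : Over w w0 (eI F w) := over_und w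
  set g1 := f1 + wp e z1 with hg1
  set g2 := f2 + wp e z2 with hg2
  have hy' := adjoin_translate hy z1
  have hf' : wp e (y + algebraMap F E z1) = algebraMap F E g1 := by
    rw [wp_add, hf, hg1, map_add]
    congr 1
    exact (map_wp (algebraMap F E) e z1).symm
  have hmapg2 : algebraMap F E f2 + wp e (algebraMap F E z2) = algebraMap F E g2 := by
    rw [hg2, map_add]
    congr 1
    exact (map_wp (algebraMap F E) e z2).symm
  by_cases hc2 : w0.Reg g2
  · refine ⟨algebraMap F E z2, ?_⟩
    rw [hmapg2]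
    exact (loc_zero_iff.2 (hov.reg.2 hc2)).mono (by norm_num)
  by_cases hc1 : w0.Reg g1
  · refine ⟨algebraMap F E z2, ?_⟩
    rw [hmapg2]
    have h3 := unram hk hy' hf' w hc1
    have h4 := Over.loc hov hz2
    rw [h3] at h4
    simpa using h4
  -- both have a simple pole
  have ho1 : g1 ≠ 0 ∧ w0.ord g1 = -1 := by
    unfold Place.Reg at hc1
    push Not at hc1
    refine ⟨hc1.1, ?_⟩
    have := hz1.resolve_left hc1.1
    omega
  have ho2 : g2 ≠ 0 ∧ w0.ord g2 = -1 := by
    unfold Place.Reg at hc2
    push Not at hc2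
    refine ⟨hc2.1, ?_⟩
    have := hz2.resolve_left hc2.1
    omega
  obtain ⟨hr1, hr2, hr3⟩ := ram hk hy' hf' w ho1.2
  set Y := y + algebraMap F E z1 with hY
  have hgreg : w0.Reg (g2 / g1) := Or.inr (by rw [w0.ord_div ho2.1 ho1.1, ho1.2, ho2.2]; simp)
  obtain ⟨d, hd, hdr⟩ := exists_root hk w0 hgreg
  have hdq : w0.Reg (d ^ 2 ^ e) := by
    generalize 2 ^ e = n
    induction n with
    | zero => rw [pow_zero]; exact w0.reg_one
    | succ n ih => rw [pow_succ]; exact w0.reg_mul ih hd
  have hdiff : g2 / g1 + d ^ 2 ^ e = 0 ∨ 0 < w0.ord (g2 / g1 + d ^ 2 ^ e) := by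
    rw [← w0.red_eq_zero_iff (w0.reg_add hgreg hdq), w0.red_add hgreg hdq, hdr]
    haveI : CharP w0.RF 2 := charE (k := k)
    exact self_add _
  refine ⟨algebraMap F E z2 + algebraMap F E d * Y, ?_⟩
  have hkey : algebraMap F E f2 + wp e (algebraMap F E z2 + algebraMap F E d * Y) =
      algebraMap F E (g1 * (g2 / g1 + d ^ 2 ^ e)) + algebraMap F E (d ^ 2 ^ e + d) * Y := by
    rw [wp_add, ← add_assoc, hmapg2]
    have hYq : Y ^ 2 ^ e = algebraMap F E g1 + Y := by
      rw [← hf']
      unfold wp
      rw [add_assoc, self_add, add_zero]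
    unfold wp
    rw [mul_pow, hYq]
    have h5 : g1 * (g2 / g1 + d ^ 2 ^ e) = g2 + g1 * d ^ 2 ^ e := by
      rw [mul_add, mul_div_cancel₀ _ ho1.1]
    rw [h5]
    simp only [map_add, map_mul, map_pow]
    ring
  rw [hkey]
  apply Loc.add
  · have h6 : Loc w0 0 (g1 * (g2 / g1 + d ^ 2 ^ e)) := by
      rcases hdiff with h | h
      · left; rw [h, mul_zero]
      · right
        have h7 : g2 / g1 + d ^ 2 ^ e ≠ 0 := by
          intro h0; rw [h0, w0.ord_zero] at h; omega
        rw [w0.ord_mul ho1.1 h7, ho1.2]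
        omega
    have := Over.loc hov h6
    rw [mul_zero] at this
    exact this.mono (by norm_num)
  · have h6 : Loc w0 0 (d ^ 2 ^ e + d) := loc_zero_iff.2 (w0.reg_add hdq hd)
    have h7 := Over.loc hov h6
    rw [mul_zero] at h7
    have h8 : Loc w 1 Y := Or.inr (by rw [hr2])
    have := h7.mul h8
    simpa using this

theorem bad_ram {e : ℕ} (hk : Fintype.card k = 2 ^ e * 2 ^ e) {y : E}
    (hy : IntermediateField.adjoin F {y} = ⊤) {f : F} (hf : wp e y = algebraMap F E f)
    (w : Place k E) (h1 : Weak e f (und F w)) (h2 : ¬ Good e f (und F w)) :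
    eI F w = 2 ^ e ∧ finrank F E = 2 ^ e := by
  haveI : CharP E 2 := charE (k := k)
  obtain ⟨z, hz⟩ := h1
  have hn : ¬ Loc (und F w) 0 (f + wp e z) := fun h => h2 ⟨z, h⟩
  have hord : (und F w).ord (f + wp e z) = -1 := by
    unfold Loc at hn
    push Not at hn
    have := hz.resolve_left hn.1
    have h3 := hn.2
    omega
  have hf' : wp e (y + algebraMap F E z) = algebraMap F E (f + wp e z) := by
    rw [wp_add, hf, map_add]
    congr 1
    exact (map_wp (algebraMap F E) e z).symm
  obtain ⟨a, b, c⟩ := ram hk (adjoin_translate hy z) hf' w hord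
  exact ⟨a, c⟩

theorem sum_deg_bad {e : ℕ} (hk : Fintype.card k = 2 ^ e * 2 ^ e) {y : E}
    (hy : IntermediateField.adjoin F {y} = ⊤) {f : F} (hf : wp e y = algebraMap F E f)
    (w0 : Place k F) (h1 : Weak e f w0) (h2 : ¬ Good e f w0) :
    ∑ w ∈ fibS E w0, w.deg = w0.deg := by
  have h3 := sum_fibS (E := E) w0
  have hne : (fibS E w0).Nonempty := by
    by_contra hc
    rw [Finset.not_nonempty_iff_eq_empty] at hc
    rw [hc, Finset.sum_empty] at h3
    have h4 : 0 < w0.deg := deg_pos w0
    have h5 : 0 < finrank F E := finrank_pos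
    have := Nat.mul_pos h5 h4
    omega
  obtain ⟨w1, hw1⟩ := hne
  have hfr : finrank F E = 2 ^ e := by
    have h4 := mem_fibS.1 hw1
    exact (bad_ram hk hy hf w1 (by rwa [h4]) (by rwa [h4])).2
  have h4 : ∑ w ∈ fibS E w0, eI F w * w.deg = 2 ^ e * ∑ w ∈ fibS E w0, w.deg := by
    rw [Finset.mul_sum]
    refine Finset.sum_congr rfl fun w hw => ?_
    have h4 := mem_fibS.1 hw
    rw [(bad_ram hk hy hf w (by rwa [h4]) (by rwa [h4])).1]
  rw [h4, hfr] at h3
  exact Nat.eq_of_mul_eq_mul_left (by positivity) h3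

theorem sum_deg_le (w0 : Place k F) : ∑ w ∈ fibS E w0, w.deg ≤ finrank F E * w0.deg := by
  rw [← sum_fibS]
  apply Finset.sum_le_sum
  intro w _
  have := (over_und (F := F) w).1
  nlinarith [Nat.zero_le w.deg]

/-- one step of the tower -/
theorem tower_step {e : ℕ} (hk : Fintype.card k = 2 ^ e * 2 ^ e) {y : E}
    (hy : IntermediateField.adjoin F {y} = ⊤) {f : F} (hf : wp e y = algebraMap F E f)
    (hfr : finrank F E = 2 ^ e) (hweak : ∀ w0 : Place k F, Weak e f w0)
    (S : Finset (Place k F)) (S' : Finset (Place k E)) (hS' : ∀ w, w ∈ S' ↔ und F w ∈ S)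
    (hbad : ∀ w0 : Place k F, ¬ Good e f w0 → w0 ∈ S) {c : ℤ}
    (hc : ∀ D : Place k F →₀ ℤ, phi D + ∑ w ∈ S, (w.deg : ℤ) ≤ c) (D' : Place k E →₀ ℤ) :
    phi D' + ∑ w ∈ S', (w.deg : ℤ) ≤ 2 ^ e * c := by
  classical
  have he := e_ne_zero hk
  haveI : CharP E 2 := charE (k := k)
  haveI : CharP F 2 := charE (k := k)
  -- the ramification divisor
  let B : Finset (Place k F) := S.filter fun w0 => ¬ Good e f w0
  let R : Place k F →₀ ℤ := ∑ w0 ∈ B, Finsupp.single w0 1
  have hRapp : ∀ w0, R w0 = if w0 ∈ B then 1 else 0 := by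
    intro w0
    simp only [R, Finsupp.finsetSum_apply, Finsupp.single_apply]
    rw [Finset.sum_ite_eq' B w0]
  have hR0 : 0 ≤ R := by
    intro w0
    rw [hRapp]
    split_ifs <;> simp
  have hRdeg : ddeg R = ∑ w ∈ B, (w.deg : ℤ) := by
    have : ddeg R = ∑ w ∈ B, ddeg (Finsupp.single w (1 : ℤ)) :=
      map_sum (ddegHom k F) _ _
    rw [this]
    refine Finset.sum_congr rfl fun w _ => ?_
    rw [ddeg_single, one_mul]
  -- the local approximations
  have hz : ∀ w0 : Place k F, ∃ z : F, Loc w0 (R w0) (f + wp e z) ∧ (w0.Reg f → z = 0) := by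
    intro w0
    by_cases hreg : w0.Reg f
    · refine ⟨0, ?_, fun _ => rfl⟩
      rw [wp_zero, add_zero]
      exact (loc_zero_iff.2 hreg).mono (hR0 w0)
    · by_cases hg : Good e f w0
      · obtain ⟨z, hz⟩ := hg
        exact ⟨z, hz.mono (hR0 w0), fun h => absurd h hreg⟩
      · obtain ⟨z, hz⟩ := hweak w0
        refine ⟨z, ?_, fun h => absurd h hreg⟩
        rw [hRapp, if_pos]
        · exact hz
        · rw [Finset.mem_filter]
          exact ⟨hbad w0 hg, hg⟩
  choose z hz1 hz2 using hz
  have hfin : (Function.support z).Finite := by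
    refine (finite_support (k := k) f).subset ?_
    intro w0 hw0
    rw [Function.mem_support] at hw0
    intro h
    apply hw0
    apply hz2
    right
    omega
  let Z : Place k F →₀ F := Finsupp.ofSupportFinite z hfin
  have hZ : ∀ w0, Z w0 = z w0 := fun _ => rfl
  have hstep : ∀ D' : Place k E →₀ ℤ, phi D' ≤ (2 ^ e : ℕ) * (c - ∑ w ∈ S, (w.deg : ℤ)) +
      ((2 ^ e : ℕ) - 1) * ddeg R := by
    apply genus_step (k := k) (F := F) (E := E) (by positivity) hfr y
      (by rw [← as_minpoly hk y hy hf, hfr]) Z R hR0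
    · intro w j hj1 hj2
      rw [hZ]
      set w0 := und F w with hw0
      set Y := y - algebraMap F E (z w0) with hY
      have hov : Over w w0 (eI F w) := over_und w
      have hwY : wp e Y = algebraMap F E (f + wp e (z w0)) := by
        have hneg : -algebraMap F E (z w0) = algebraMap F E (z w0) := CharTwo.neg_eq _
        have h1 : Y = y + algebraMap F E (z w0) := by rw [hY, sub_eq_add_neg, hneg]
        rw [h1, wp_add, hf, map_add]
        congr 1
        exact (map_wp (algebraMap F E) e _).symm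
      have h2 : Loc w (eI F w * R w0) (wp e Y) := by
        rw [hwY]; exact Over.loc hov (hz1 w0)
      have hRnn : 0 ≤ (eI F w : ℤ) * R w0 := mul_nonneg (by positivity) (hR0 w0)
      rcases lt_or_ge (w.ord Y) 0 with hneg | hpos
      · -- pole
        have hY0 : Y ≠ 0 := by
          rintro h
          rw [h, w.ord_zero] at hneg; omega
        have h3 := ord_wp_of_neg (k := k) he w hneg
        have hwY0 : wp e Y ≠ 0 := by
          intro h
          rw [h, w.ord_zero] at h3
          have : (0 : ℤ) < 2 ^ e := by positivity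
          nlinarith
        have h4 := h2.resolve_left hwY0
        rw [h3] at h4
        right
        rw [w.ord_pow]
        have hj2' : (j : ℤ) ≤ 2 ^ e := by exact_mod_cast hj2.le
        nlinarith
      · right
        rw [w.ord_pow]
        have : (0 : ℤ) ≤ j * w.ord Y := by positivity
        omega
    · intro D
      have := hc D
      omega
  have h1 := hstep D'
  -- the sum over S'
  have hT : ∑ w ∈ S', (w.deg : ℤ) = ∑ w0 ∈ S, ((∑ w ∈ fibS E w0, w.deg : ℕ) : ℤ) := by
    push_cast
    rw [← Finset.sum_biUnion]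
    · refine Finset.sum_congr ?_ fun _ _ => rfl
      ext w
      rw [hS', Finset.mem_biUnion]
      constructor
      · intro h
        exact ⟨_, h, mem_fibS.2 rfl⟩
      · rintro ⟨w0, h, hw⟩
        rwa [mem_fibS.1 hw]
    · intro a _ b _ hab
      rw [Function.onFun, Finset.disjoint_left]
      intro w hwa hwb
      exact hab ((mem_fibS.1 hwa).symm.trans (mem_fibS.1 hwb))
  have hT2 : ∑ w ∈ S', (w.deg : ℤ) ≤ 2 ^ e * ∑ w ∈ S, (w.deg : ℤ) - (2 ^ e - 1) * ddeg R := by
    rw [hT, hRdeg, Finset.sum_filter, Finset.mul_sum, Finset.mul_sum, ← Finset.sum_sub_distrib]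
    apply Finset.sum_le_sum
    intro w0 hw0
    by_cases hg : Good e f w0
    · rw [if_neg (not_not.2 hg), mul_zero, sub_zero]
      have := sum_deg_le (E := E) w0
      rw [hfr] at this
      exact_mod_cast this
    · rw [if_pos hg, sum_deg_bad hk hy hf w0 (hweak w0) hg]
      apply le_of_eq
      ring
  push_cast at h1
  nlinarith

end

end Pool.Agent.W132.AG
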